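import Pool.Agent.Helper42.PQ.Defs

set_option autoImplicit false
set_option linter.unusedSectionVars false

/-!
Small API for swarm PQ.
-/

namespace Pool.Agent.Helper42.PQ

open Finset

section Weights
variable {ι : Type} [Fintype ι] {d s : ℕ}

lemma Wt_zero : Wt (0 : Multiset (G ι d s)) = 0 := by
  simp [Wt]

lemma Wt_cons (u : G ι d s) (S : Multiset (G ι d s)) : Wt (u ::ₘ S) = u.1 + Wt S := by
  simp [Wt]

lemma Wt_add (S T : Multiset (G ι d s)) : Wt (S + T) = Wt S + Wt T := by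
  simp [Wt]

lemma Wt_singleton (u : G ι d s) : Wt ({u} : Multiset (G ι d s)) = u.1 := by
  simp [Wt]

lemma Wt_sum {β : Type} (A : Finset β) (T : β → Multiset (G ι d s)) :
    Wt (∑ j ∈ A, T j) = ∑ j ∈ A, Wt (T j) := by
  classical
  induction A using Finset.induction_on with
  | empty => simp [Wt_zero]
  | insert a A ha ih => rw [Finset.sum_insert ha, Finset.sum_insert ha, Wt_add, ih]

lemma sum_Wt (S : Multiset (G ι d s)) : ∑ i, Wt S i = S.card * d := by
  induction S using Multiset.induction_on with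
  | empty => simp [Wt_zero]
  | cons u S ih =>
    rw [Wt_cons, Multiset.card_cons]
    simp only [Pi.add_apply]
    rw [Finset.sum_add_distrib, ih, u.2.1]
    ring

lemma exists_cons {S : Multiset (G ι d s)} {m : G ι d s} (h : m ∈ S) : ∃ S', S = m ::ₘ S' :=
  Multiset.exists_cons_of_mem h

lemma le_Wt {S : Multiset (G ι d s)} {m : G ι d s} (h : m ∈ S) (i : ι) : m.1 i ≤ Wt S i := by
  obtain ⟨S', rfl⟩ := exists_cons h
  rw [Wt_cons]
  show m.1 i ≤ m.1 i + Wt S' i
  omega

lemma mem_sp {w : ι → ℕ} {i : ι} : i ∈ sp w ↔ w i ≠ 0 := by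
  unfold sp; simp

lemma card_sp_le (m : G ι d s) : (sp m.1).card ≤ s := m.2.2

/-- making a generator -/
lemma mkG (f : ι → ℕ) (hs : ∑ i, f i = d) (S : Finset ι) (hS : S.card ≤ s)
    (h : ∀ i, i ∉ S → f i = 0) : ∃ g : G ι d s, g.1 = f := by
  refine ⟨⟨f, hs, le_trans (Finset.card_le_card ?_) hS⟩, rfl⟩
  intro i hi
  rw [Finset.mem_filter] at hi
  by_contra hc
  exact hi.2 (h i hc)

lemma mkG' (f : ι → ℕ) (hs : ∑ i, f i = d) (hS : (sp f).card ≤ s) : ∃ g : G ι d s, g.1 = f :=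
  ⟨⟨f, hs, hS⟩, rfl⟩

lemma card_eq_of_Wt (hd : 1 ≤ d) {S T : Multiset (G ι d s)} (h : Wt S = Wt T) :
    S.card = T.card := by
  have h1 := sum_Wt S
  have h2 := sum_Wt T
  rw [h] at h1
  rw [h1] at h2
  exact Nat.eq_of_mul_eq_mul_right (by omega) h2

lemma card_of_Wt (hd : 1 ≤ d) {S : Multiset (G ι d s)} {w : ι → ℕ} {k : ℕ} (h : Wt S = w)
    (hk : ∑ i, w i = k * d) : S.card = k := by
  have h1 := sum_Wt S
  rw [h, hk] at h1
  exact (Nat.eq_of_mul_eq_mul_right (by omega) h1).symm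

lemma sum_sub_of_le (w f : ι → ℕ) (h : ∀ i, f i ≤ w i) :
    ∑ i, (w - f) i + ∑ i, f i = ∑ i, w i := by
  rw [← Finset.sum_add_distrib]
  exact Finset.sum_congr rfl (fun i _ => Nat.sub_add_cancel (h i))

/-! ### connectedness -/

lemma Cn.refl (S : Multiset (G ι d s)) : Cn S S := Relation.EqvGen.refl _

lemma Cn.symm {S T : Multiset (G ι d s)} (h : Cn S T) : Cn T S := Relation.EqvGen.symm _ _ h

lemma Cn.trans {S T U : Multiset (G ι d s)} (h : Cn S T) (h' : Cn T U) : Cn S U :=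
  Relation.EqvGen.trans _ _ _ h h'

lemma Cn.of_eq {S T : Multiset (G ι d s)} (h : S = T) : Cn S T := h ▸ Cn.refl S

lemma Cn.of_Mv {S T : Multiset (G ι d s)} (h : Mv S T) : Cn S T := Relation.EqvGen.rel _ _ h

lemma Cn.move {u v u' v' : G ι d s} (A : Multiset (G ι d s)) (h : u.1 + v.1 = u'.1 + v'.1) :
    Cn (u ::ₘ v ::ₘ A) (u' ::ₘ v' ::ₘ A) := Cn.of_Mv (Mv.mk u v u' v' A h)

lemma Cn.add {S T : Multiset (G ι d s)} (h : Cn S T) (U : Multiset (G ι d s)) :
    Cn (S + U) (T + U) := by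
  unfold Cn at h ⊢
  induction h with
  | rel x y h =>
    obtain ⟨u, v, u', v', A, h⟩ := h
    rw [Multiset.cons_add, Multiset.cons_add, Multiset.cons_add, Multiset.cons_add]
    exact Relation.EqvGen.rel _ _ (Mv.mk u v u' v' (A + U) h)
  | refl x => exact Relation.EqvGen.refl _
  | symm x y _ ih => exact Relation.EqvGen.symm _ _ ih
  | trans x y z _ _ ih1 ih2 => exact Relation.EqvGen.trans _ _ _ ih1 ih2

lemma Cn.add_left {S T : Multiset (G ι d s)} (h : Cn S T) (U : Multiset (G ι d s)) :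
    Cn (U + S) (U + T) := by
  rw [add_comm U S, add_comm U T]; exact h.add U

lemma Cn.add_both {S T S' T' : Multiset (G ι d s)} (h : Cn S T) (h' : Cn S' T') :
    Cn (S + S') (T + T') := (h.add S').trans (h'.add_left T)

lemma Cn.cons {S T : Multiset (G ι d s)} (h : Cn S T) (u : G ι d s) :
    Cn (u ::ₘ S) (u ::ₘ T) := by
  have := h.add_left {u}
  rwa [Multiset.singleton_add, Multiset.singleton_add] at this

lemma Cn.sum {β : Type} (A : Finset β) (S T : β → Multiset (G ι d s))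
    (h : ∀ j ∈ A, Cn (S j) (T j)) : Cn (∑ j ∈ A, S j) (∑ j ∈ A, T j) := by
  classical
  induction A using Finset.induction_on with
  | empty => simpa using Cn.refl _
  | insert a A ha ih =>
    rw [Finset.sum_insert ha, Finset.sum_insert ha]
    exact (h a (Finset.mem_insert_self _ _)).add_both
      (ih (fun j hj => h j (Finset.mem_insert_of_mem hj)))

lemma Cn.Wt_eq {S T : Multiset (G ι d s)} (h : Cn S T) : Wt S = Wt T := by
  unfold Cn at h
  induction h with
  | rel x y h =>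
    obtain ⟨u, v, u', v', A, h⟩ := h
    rw [Wt_cons, Wt_cons, Wt_cons, Wt_cons, ← add_assoc, ← add_assoc, h]
  | refl x => rfl
  | symm x y _ ih => exact ih.symm
  | trans x y z _ _ ih1 ih2 => exact ih1.trans ih2

lemma Cn.card_eq {S T : Multiset (G ι d s)} (h : Cn S T) : S.card = T.card := by
  unfold Cn at h
  induction h with
  | rel x y h =>
    obtain ⟨u, v, u', v', A, h⟩ := h
    simp
  | refl x => rfl
  | symm x y _ ih => exact ih.symm
  | trans x y z _ _ ih1 ih2 => exact ih1.trans ih2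

/-- degrees `0`, `1`, `2` -/
lemma Conn_le_two {k : ℕ} (hk : k ≤ 2) (w : ι → ℕ) : Conn ι d s k w := by
  intro S T hS hT hSw hTw
  rcases (by omega : k = 0 ∨ k = 1 ∨ k = 2) with rfl | rfl | rfl
  · rw [Multiset.card_eq_zero] at hS hT
    rw [hS, hT]; exact Cn.refl _
  · rw [Multiset.card_eq_one] at hS hT
    obtain ⟨a, rfl⟩ := hS
    obtain ⟨b, rfl⟩ := hT
    rw [Wt_singleton] at hSw hTw
    have : a = b := Subtype.ext (hSw.trans hTw.symm)
    rw [this]; exact Cn.refl _
  · rw [Multiset.card_eq_two] at hS hT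
    obtain ⟨a, b, rfl⟩ := hS
    obtain ⟨a', b', rfl⟩ := hT
    have e : ∀ u v : G ι d s, ({u, v} : Multiset (G ι d s)) = u ::ₘ v ::ₘ 0 := fun _ _ => rfl
    rw [e] at hSw hTw ⊢
    rw [e]
    apply Cn.move
    rw [Wt_cons, Wt_cons, Wt_zero, add_zero] at hSw hTw
    rw [hSw, hTw]

/-- two configurations with a common block -/
lemma Cn.of_common {k : ℕ} {w : ι → ℕ} {S T : Multiset (G ι d s)} {m : G ι d s}
    (hm : m ∈ S) (hm' : m ∈ T) (hS : S.card = k + 1) (hT : T.card = k + 1) (hSw : Wt S = w)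
    (hTw : Wt T = w) (h : Conn ι d s k (w - m.1)) : Cn S T := by
  obtain ⟨S', rfl⟩ := exists_cons hm
  obtain ⟨T', rfl⟩ := exists_cons hm'
  rw [Multiset.card_cons] at hS hT
  rw [Wt_cons] at hSw hTw
  apply Cn.cons
  apply h S' T' (by omega) (by omega)
  · rw [← hSw]; funext i; simp
  · rw [← hTw]; funext i; simp

end Weights

section Nodes
variable {ι : Type} [Fintype ι] [DecidableEq ι] {w : ι → ℕ} {r d : ℕ} {p : Finset ι × ι}

lemma bvec_mem {i : ι} (h : i ∈ p.1) : bvec w d p i = w i := if_pos h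

lemma bvec_x (h : p.2 ∉ p.1) : bvec w d p p.2 = d - sg w p.1 := by
  unfold bvec; rw [if_neg h, if_pos rfl]

lemma bvec_out {i : ι} (h : i ∉ p.1) (hx : i ≠ p.2) : bvec w d p i = 0 := by
  unfold bvec; rw [if_neg h, if_neg hx]

lemma bvec_sum (h : Bn w r d p.1 p.2) : ∑ i, bvec w d p i = d := by
  obtain ⟨_, h2, h3, _⟩ := h
  have e : ∑ i ∈ insert p.2 p.1, bvec w d p i = ∑ i, bvec w d p i := by
    apply Finset.sum_subset (Finset.subset_univ _)
    intro i _ hi
    rw [Finset.mem_insert, not_or] at hi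
    exact bvec_out hi.2 hi.1
  rw [← e, Finset.sum_insert h2, bvec_x h2]
  have : ∑ i ∈ p.1, bvec w d p i = sg w p.1 := Finset.sum_congr rfl (fun i hi => bvec_mem hi)
  rw [this]; omega

lemma bvec_le (h : Bn w r d p.1 p.2) (i : ι) : bvec w d p i ≤ w i := by
  obtain ⟨_, h2, h3, h4⟩ := h
  by_cases hi : i ∈ p.1
  · rw [bvec_mem hi]
  · by_cases hx : i = p.2
    · rw [hx, bvec_x h2]; omega
    · rw [bvec_out hi hx]; omega

lemma bvec_gen (h : Bn w r d p.1 p.2) : ∃ g : G ι d (r + 1), g.1 = bvec w d p := by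
  apply mkG _ (bvec_sum h) (insert p.2 p.1)
  · rw [Finset.card_insert_of_notMem h.2.1, h.1]
  · intro i hi
    rw [Finset.mem_insert, not_or] at hi
    exact bvec_out hi.2 hi.1

lemma sum_sub_bvec {k : ℕ} (h : Bn w r d p.1 p.2) (hk : ∑ i, w i = (k + 1) * d) :
    ∑ i, (w - bvec w d p) i = k * d := by
  have h1 := sum_sub_of_le w (bvec w d p) (bvec_le h)
  rw [bvec_sum h, hk] at h1
  have : (k + 1) * d = k * d + d := by ring
  omega

/-- after removing a node the rest lives on `D \ P` -/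
lemma sub_bvec_off {D : Finset ι} (hw : ∀ i, i ∉ D → w i = 0) :
    ∀ i, i ∉ D \ p.1 → (w - bvec w d p) i = 0 := by
  intro i hi
  rw [Finset.mem_sdiff, not_and_or, not_not] at hi
  show w i - bvec w d p i = 0
  rcases hi with hi | hi
  · rw [hw i hi]; omega
  · rw [bvec_mem hi]; omega

lemma card_sdiff_node {D : Finset ι} {k : ℕ} (h : Nd w r d D p) (hD : D.card = (k + 1) * r + 1) :
    (D \ p.1).card = k * r + 1 := by
  rw [Finset.card_sdiff_of_subset h.1, hD, h.2.2.1]
  have : (k + 1) * r = k * r + r := by ring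
  omega

lemma sp_sub_bvec : sp (w - bvec w d p) ⊆ sp w \ p.1 := by
  intro i hi
  rw [mem_sp] at hi
  rw [Finset.mem_sdiff, mem_sp]
  have hi' : w i - bvec w d p i ≠ 0 := hi
  refine ⟨by omega, fun h => ?_⟩
  rw [bvec_mem h] at hi'
  omega

lemma NCn.refl {u : ι → ℕ} {D : Finset ι} (p : Finset ι × ι) : NCn u r d D p p :=
  Relation.EqvGen.refl _

lemma NCn.symm {u : ι → ℕ} {D : Finset ι} {p q : Finset ι × ι} (h : NCn u r d D p q) :
    NCn u r d D q p := Relation.EqvGen.symm _ _ h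

lemma NCn.trans {u : ι → ℕ} {D : Finset ι} {p q s : Finset ι × ι} (h : NCn u r d D p q)
    (h' : NCn u r d D q s) : NCn u r d D p s := Relation.EqvGen.trans _ _ _ h h'

lemma NCn.of_adj {u : ι → ℕ} {D : Finset ι} {p q : Finset ι × ι} (h : NAd u r d D p q) :
    NCn u r d D p q := Relation.EqvGen.rel _ _ h

end Nodes

section Groupings
variable {ι : Type} [Fintype ι] [DecidableEq ι] {d r q : ℕ} {w : ι → ℕ} {ρ : ι → Fin q}

lemma Grp.Wt_sum {T : Fin q → Multiset (G ι d (r + 1))} (h : Grp w ρ T) : Wt (∑ j, T j) = w := by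
  rw [Pool.Agent.Helper42.PQ.Wt_sum]
  funext i
  rw [Finset.sum_apply]
  have e : ∀ j, Wt (T j) i = if ρ i = j then w i else 0 := fun j => by rw [(h j).1]
  simp only [e]
  simp

lemma Cf.Wt_eq {S : Multiset (G ι d (r + 1))} (h : Cf w ρ S) : Wt S = w := by
  obtain ⟨T, hT, rfl⟩ := h
  exact hT.Wt_sum

lemma mem_cls {j : Fin q} {i : ι} : i ∈ cls w ρ j ↔ w i ≠ 0 ∧ ρ i = j := by
  unfold cls; rw [Finset.mem_filter, mem_sp]

lemma sp_class (j : Fin q) : sp (fun i => if ρ i = j then w i else 0) = cls w ρ j := by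
  ext i
  rw [mem_sp, mem_cls]
  by_cases h : ρ i = j <;> simp [h]

lemma sum_class (j : Fin q) : ∑ i, (if ρ i = j then w i else 0) = sg w (cls w ρ j) := by
  unfold sg cls sp
  rw [Finset.filter_filter, Finset.sum_filter]
  apply Finset.sum_congr rfl
  intro i _
  by_cases h : ρ i = j
  · by_cases h' : w i = 0 <;> simp [h, h']
  · simp [h]

lemma Cf.NG {S : Multiset (G ι d (r + 1))} (h : Cf w ρ S) : NG w r d ρ := by
  obtain ⟨T, hT, rfl⟩ := h
  intro j
  obtain ⟨h1, h2⟩ := hT j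
  refine ⟨(T j).card, ?_, ?_, ?_⟩
  · rcases Nat.eq_zero_or_pos (T j).card with h0 | h0
    · rw [Multiset.card_eq_zero] at h0
      rw [h0, Wt_zero] at h2
      simp [sp] at h2
    · exact h0
  · rw [← h2, h1, sp_class]
  · rw [← sum_Wt, h1, sum_class]

end Groupings

section Divisions
variable {α β : Type} [Fintype α] [DecidableEq β] {N : ℕ} {x : α → ℕ} {ρ κ ρ' : α → β}

lemma TwoOn.symm {A : Set α} {a b : β} (h : TwoOn A a b ρ ρ') : TwoOn A a b ρ' ρ := by
  intro v hv
  obtain ⟨h1, h2⟩ := h v hv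
  constructor
  · intro h3 h4
    by_cases ha : ρ v = a
    · rcases h2 (Or.inl ha) with h | h
      · exact absurd h h3
      · exact absurd h h4
    · by_cases hb : ρ v = b
      · rcases h2 (Or.inr hb) with h | h
        · exact absurd h h3
        · exact absurd h h4
      · exact (h1 ha hb).symm
  · intro h3
    by_contra hc
    rw [not_or] at hc
    rw [h1 hc.1 hc.2] at h3
    rcases h3 with h | h
    · exact hc.1 h
    · exact hc.2 h

lemma DStep.symm (h : DStep N x ρ ρ') : DStep N x ρ' ρ := by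
  obtain ⟨h1, h2, a, b, h⟩ := h
  exact ⟨h2, h1, a, b, h.symm⟩

lemma DCn.refl (ρ : α → β) : DCn N x ρ ρ := Relation.EqvGen.refl _

lemma DCn.symm (h : DCn N x ρ κ) : DCn N x κ ρ := Relation.EqvGen.symm _ _ h

lemma DCn.trans (h : DCn N x ρ κ) (h' : DCn N x κ ρ') : DCn N x ρ ρ' :=
  Relation.EqvGen.trans _ _ _ h h'

lemma DCn.step (h : DStep N x ρ κ) : DCn N x ρ κ := Relation.EqvGen.rel _ _ h

/-- induction along a walk of divisions -/
lemma DCn.induction {P : (α → β) → Prop} (h : DCn N x ρ κ) (h0 : P ρ)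
    (hs : ∀ σ σ', DStep N x σ σ' → P σ → P σ') : P κ := by
  have key : ∀ σ σ' : α → β, DCn N x σ σ' → (P σ ↔ P σ') := by
    intro σ σ' h
    unfold DCn at h
    induction h with
    | rel a b h => exact ⟨hs a b h, hs b a h.symm⟩
    | refl a => exact Iff.rfl
    | symm a b _ ih => exact ih.symm
    | trans a b c _ _ ih1 ih2 => exact ih1.trans ih2
  exact (key _ _ h).mp h0

end Divisions

end Pool.Agent.Helper42.PQ
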