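import Pool.Agent.Helper42.PQ.Spec2
import Pool.Agent.Helper42.PQ.Base

set_option autoImplicit false

namespace Pool.Agent.Helper42.PQ.BR

open Finset Pool.Agent.Helper42.PQ Pool.Agent.Helper857.PV

theorem main : S_BR := by
  intro K _ n d s hd h
  apply quad_of
  intro S T hST
  have hST' : Pool.Agent.Helper42.PQ.Wt (ι := Fin n) (d := d) (s := s) S =
    Pool.Agent.Helper42.PQ.Wt (ι := Fin n) (d := d) (s := s) T := hST
  have hc : Cn (ι := Fin n) (d := d) (s := s) S T := by
    have h1 := Pool.Agent.Helper42.PQ.sum_Wt (ι := Fin n) (d := d) (s := s) S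
    exact h S.card _ h1 S T rfl (card_eq_of_Wt hd hST').symm rfl hST'.symm
  unfold Cn at hc
  clear hST hST'
  induction hc with
  | rel x y h =>
    obtain ⟨u, v, u', v', A, h⟩ := h
    have h1 := (Re.move (K := K) (n := n) (d := d) (s := s) h).add A
    have e : ∀ a b : Gen n d s, A + (a ::ₘ b ::ₘ 0 : Multiset (Gen n d s)) = a ::ₘ b ::ₘ A := by
      intro a b; rw [Multiset.add_cons, Multiset.add_cons, add_zero]
    rw [e, e] at h1
    exact h1
  | refl x => exact Re.refl _
  | symm x y _ ih => exact ih.symm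
  | trans x y z _ _ ih1 ih2 => exact ih1.trans ih2

end Pool.Agent.Helper42.PQ.BR
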