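import Pool.Agent.Helper42.PQ.Spec
import Pool.Agent.Helper42.PQ.Base

set_option autoImplicit false

namespace Pool.Agent.Helper42.PQ.POS

open Finset Pool.Agent.Helper42.PQ

variable {ι : Type} [Fintype ι] [DecidableEq ι] {w : ι → ℕ}

lemma heavy_total : (∑ v : {v : ι // 2 ≤ w v}, (w v.1 - 1)) + (sp w).card = ∑ i, w i := by
  have h2 : ∑ i ∈ Finset.univ.filter (fun i => 2 ≤ w i), (w i - 1) =
      ∑ v : {v : ι // 2 ≤ w v}, (w v.1 - 1) :=
    Finset.sum_subtype (s := Finset.univ.filter (fun i => 2 ≤ w i))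
      (p := fun i => 2 ≤ w i) (fun i => by simp) (fun i => w i - 1)
  rw [← h2, Finset.card_eq_sum_ones]
  unfold sp
  rw [Finset.sum_filter, Finset.sum_filter, ← Finset.sum_add_distrib]
  apply Finset.sum_congr rfl
  intro i _
  by_cases h : w i = 0
  · simp [h]
  · by_cases h5 : 2 ≤ w i
    · simp [h, h5]; omega
    · have h6 : w i = 1 := by omega
      simp [h6]

theorem main (hL : S_L) (hQ2 : S_Q2) (hQ3 : S_Q3) (hMP : S_MP) : S_POS := by
  intro ι _ _ d r K hr hd hd2
  have hfirst : ∀ (k : ℕ) (w : ι → ℕ), ∑ i, w i = k * d → (sp w).card ≤ k * r + 2 →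
      Conn ι d (r + 1) k w := by
    intro k
    induction k using Nat.strong_induction_on with
    | _ k ih =>
      intro w hw hsp
      by_cases hk : k ≤ 2
      · exact Conn_le_two hk w
      · by_cases h1 : (sp w).card ≤ k * r + 1
        · exact (hL ι d r k w hr (by omega) hw h1).1
        · exact hQ2 ι d r k w hr hd hd2 (by omega) hw (by omega) ih
  refine ⟨hfirst, fun hG k => ?_⟩
  induction k using Nat.strong_induction_on with
  | _ k ih =>
    intro hkK w hw
    by_cases h1 : (sp w).card ≤ k * r + 2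
    · exact hfirst k w hw h1
    · set q := (sp w).card - k * r with hq
      have hq3 : 3 ≤ q := by omega
      refine hQ3 ι d r q k w hr hd hd2 hq3 hw (by omega) (fun k' hk' => ih k' hk' (by omega)) ?_
      intro ρ κ hρ hκ
      refine hMP (d - r) K hG _ _ _ ρ κ hρ hκ ?_
      have h2 := heavy_total (w := w)
      rw [hw] at h2
      rw [Fintype.card_fin]
      have h3 : k * d = k * (d - r) + k * r := by
        rw [← Nat.mul_add]; congr 1; omega
      have h4 : k * (d - r) ≤ (d - r) * K := by
        rw [mul_comm]; exact Nat.mul_le_mul_left _ hkK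
      have h5 : (∑ v : {v : ι // 2 ≤ w v}, (w v.1 - 1)) + q = k * (d - r) := by omega
      exact h5 ▸ h4

end Pool.Agent.Helper42.PQ.POS
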