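import Pool.Agent.Helper42.PQ.Spec
import Pool.Agent.Helper42.PQ.Base

set_option autoImplicit false
set_option linter.unusedSectionVars false

namespace Pool.Agent.Helper42.PQ.Q2

open Finset Pool.Agent.Helper42.PQ
open Pool.Agent.Helper46.PV (sg_mono sg_sdiff)

variable {ι : Type} [Fintype ι] [DecidableEq ι] {d r q k : ℕ} {w : ι → ℕ}

/-- the excess of a cell -/
def Fs (w : ι → ℕ) (ρ ρ' : ι → Fin 2) (a b : Fin 2) : ℕ :=
  ∑ i, if w i ≠ 0 ∧ ρ i = a ∧ ρ' i = b then w i - 1 else 0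

lemma Fs_comm (ρ ρ' : ι → Fin 2) (a b : Fin 2) : Fs w ρ ρ' a b = Fs w ρ' ρ b a := by
  unfold Fs
  apply Finset.sum_congr rfl
  intro i _
  by_cases h1 : ρ i = a <;> by_cases h2 : ρ' i = b <;> simp [h1, h2]

lemma Fs_cell (ρ ρ' : ι → Fin 2) (a b : Fin 2) :
    ((cls w ρ a).filter (fun i => ρ' i = b)).card + Fs w ρ ρ' a b =
      sg w ((cls w ρ a).filter (fun i => ρ' i = b)) := by
  have h : Fs w ρ ρ' a b = ∑ i ∈ (cls w ρ a).filter (fun i => ρ' i = b), (w i - 1) := by
    unfold Fs cls sp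
    rw [Finset.filter_filter, Finset.filter_filter, Finset.sum_filter]
  rw [h, Finset.card_eq_sum_ones, ← Finset.sum_add_distrib]
  apply Finset.sum_congr rfl
  intro i hi
  rw [Finset.mem_filter, mem_cls] at hi
  omega

lemma fin2 : ∀ b c : Fin 2, c ≠ b → c = b + 1 := by decide

lemma fin1 (hNODE : S_NODE) (hROW : S_ROW) (hr : 2 ≤ r) (hd : r + 2 ≤ d) (hd2 : d ≤ 2 * r + 2)
    (hk : 3 ≤ k) (hw : ∑ i, w i = k * d) (hsp : (sp w).card = k * r + 2)
    (ih : ∀ k' < k, ∀ w' : ι → ℕ, ∑ i, w' i = k' * d → (sp w').card ≤ k' * r + 2 →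
      Conn ι d (r + 1) k' w')
    (ρ ρ' : ι → Fin 2) (a b : Fin 2) (S T : Multiset (G ι d (r + 1))) (hS : Cf w ρ S)
    (hT : Cf w ρ' T) (hF : d - r ≤ Fs w ρ ρ' a b)
    (hY : ∀ i, w i ≠ 0 → ρ i = a → ρ' i ≠ b → 2 ≤ w i) : Cn S T := by
  obtain ⟨t, ht, hc, hs⟩ := hS.NG a
  set X := (cls w ρ a).filter (fun i => ρ' i = b) with hX
  set Y := (cls w ρ a).filter (fun i => ¬ ρ' i = b) with hYd
  have hcard : X.card + Y.card = t * r + 1 := by
    rw [← hc]; exact Finset.card_filter_add_card_filter_not _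
  have hsum : sg w X + sg w Y = t * d := by
    rw [← hs]; exact Finset.sum_filter_add_sum_filter_not _ _ _
  have hcell := Fs_cell (w := w) ρ ρ' a b
  rw [← hX] at hcell
  have hdis : Disjoint X Y := Finset.disjoint_filter_filter_not _ _ _
  have hXi : ∀ i ∈ X, w i ≠ 0 ∧ ρ i = a ∧ ρ' i = b := by
    intro i hi
    rw [hX, Finset.mem_filter, mem_cls] at hi
    exact ⟨hi.1.1, hi.1.2, hi.2⟩
  have hYi : ∀ i ∈ Y, w i ≠ 0 ∧ ρ i = a ∧ ρ' i ≠ b := by
    intro i hi
    rw [hYd, Finset.mem_filter, mem_cls] at hi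
    exact ⟨hi.1.1, hi.1.2, hi.2⟩
  have hnode := hROW ι w X Y r d t hr hd hd2 ht hdis
    (fun i hi => Nat.one_le_iff_ne_zero.mpr (hXi i hi).1)
    (fun i hi => hY i (hYi i hi).1 (hYi i hi).2.1 (hYi i hi).2.2) hcard hsum (by omega)
  have hk1 : k = (k - 1) + 1 := by omega
  have hconn : ∀ p : Finset ι × ι, Bn w r d p.1 p.2 → p.1 ⊆ cls w ρ a →
      Conn ι d (r + 1) (k - 1) (w - bvec w d p) := by
    intro p hp hpa
    apply ih (k - 1) (by omega)
    · exact sum_sub_bvec hp (by rw [← hk1]; exact hw)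
    · have h1 := Finset.card_le_card (sp_sub_bvec (w := w) (d := d) (p := p))
      have h2 : p.1 ⊆ sp w := fun i hi => by
        have := hpa hi
        rw [mem_cls] at this
        rw [mem_sp]; exact this.1
      rw [Finset.card_sdiff_of_subset h2, hp.1, hsp] at h1
      have h3 : k * r = (k - 1) * r + r := by
        conv_lhs => rw [hk1]
        ring
      omega
  rcases hnode with ⟨P, x, hP, hx, hB⟩ | ⟨P, x, hP, hx, hB⟩
  · have hPa : P ⊆ cls w ρ a := fun i hi => by
      rw [mem_cls]; exact ⟨(hXi i (hP hi)).1, (hXi i (hP hi)).2.1⟩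
    refine hNODE ι d r 2 2 (k - 1) w ρ ρ' a b (P, x) S T hr (by omega)
      (by rw [← hk1]; exact hw) (hconn (P, x) hB hPa) hB hPa ?_ ?_ ?_ hS hT
    · rw [mem_cls]; exact ⟨(hXi x hx).1, (hXi x hx).2.1⟩
    · intro i hi
      rw [mem_cls]; exact ⟨(hXi i (hP hi)).1, (hXi i (hP hi)).2.2⟩
    · rw [mem_cls]; exact ⟨(hXi x hx).1, (hXi x hx).2.2⟩
  · have hPa : P ⊆ cls w ρ a := fun i hi => by
      rw [mem_cls]; exact ⟨(hYi i (hP hi)).1, (hYi i (hP hi)).2.1⟩
    refine hNODE ι d r 2 2 (k - 1) w ρ ρ' a (b + 1) (P, x) S T hr (by omega)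
      (by rw [← hk1]; exact hw) (hconn (P, x) hB hPa) hB hPa ?_ ?_ ?_ hS hT
    · rw [mem_cls]; exact ⟨(hYi x hx).1, (hYi x hx).2.1⟩
    · intro i hi
      rw [mem_cls]; exact ⟨(hYi i (hP hi)).1, fin2 _ _ (hYi i (hP hi)).2.2⟩
    · rw [mem_cls]; exact ⟨(hYi x hx).1, fin2 _ _ (hYi x hx).2.2⟩

lemma loop (hFSW : S_FSW) (hNODE : S_NODE) (hROW : S_ROW) (hr : 2 ≤ r) (hd : r + 2 ≤ d)
    (hd2 : d ≤ 2 * r + 2)
    (hk : 3 ≤ k) (hw : ∑ i, w i = k * d) (hsp : (sp w).card = k * r + 2)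
    (ih : ∀ k' < k, ∀ w' : ι → ℕ, ∑ i, w' i = k' * d → (sp w').card ≤ k' * r + 2 →
      Conn ι d (r + 1) k' w')
    (ρ : ι → Fin 2) (a b : Fin 2) (S : Multiset (G ι d (r + 1))) (hS : Cf w ρ S) :
    ∀ (n : ℕ) (ρ' : ι → Fin 2) (T : Multiset (G ι d (r + 1))), Cf w ρ' T →
    d - r ≤ Fs w ρ ρ' a b →
    (Finset.univ.filter (fun i => w i = 1 ∧ ρ i = a ∧ ρ' i ≠ b)).card = n → Cn S T := by
  intro n
  induction n with
  | zero =>
    intro ρ' T hT hF hn
    apply fin1 hNODE hROW hr hd hd2 hk hw hsp ih ρ ρ' a b S T hS hT hF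
    intro i h1 h2 h3
    rw [Finset.card_eq_zero, Finset.filter_eq_empty_iff] at hn
    have := hn (Finset.mem_univ i)
    by_contra hc
    exact this ⟨by omega, h2, h3⟩
  | succ n ihn =>
    intro ρ' T hT hF hn
    by_cases hz : ∃ z', w z' = 1 ∧ ρ z' ≠ a ∧ ρ' z' = b
    · obtain ⟨z', hz1, hz2, hz3⟩ := hz
      have hne : (Finset.univ.filter (fun i => w i = 1 ∧ ρ i = a ∧ ρ' i ≠ b)).Nonempty := by
        rw [← Finset.card_pos]; omega
      obtain ⟨z, hzm⟩ := hne
      have hzm' := hzm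
      rw [Finset.mem_filter] at hzm
      obtain ⟨_, hy1, hy2, hy3⟩ := hzm
      have hzz : z ≠ z' := fun h => hz2 (h ▸ hy2)
      obtain ⟨T', hT', hTT⟩ := hFSW ι d r 2 w ρ' z z' T hy1 hz1 (fun h => hy3 (h.trans hz3)) hT
      refine (ihn (fun i => ρ' (Equiv.swap z z' i)) T' hT' ?_ ?_).trans hTT.symm
      · refine le_trans hF (le_of_eq ?_)
        unfold Fs
        apply Finset.sum_congr rfl
        intro i _
        by_cases e1 : i = z
        · subst e1; simp [hy1]
        · by_cases e2 : i = z'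
          · subst e2; simp [hz1]
          · show (if w i ≠ 0 ∧ ρ i = a ∧ ρ' i = b then w i - 1 else 0) =
              if w i ≠ 0 ∧ ρ i = a ∧ ρ' (Equiv.swap z z' i) = b then w i - 1 else 0
            rw [Equiv.swap_apply_of_ne_of_ne e1 e2]
      · have : Finset.univ.filter (fun i => w i = 1 ∧ ρ i = a ∧ ρ' (Equiv.swap z z' i) ≠ b) =
            (Finset.univ.filter (fun i => w i = 1 ∧ ρ i = a ∧ ρ' i ≠ b)).erase z := by
          ext i
          rw [Finset.mem_erase, Finset.mem_filter, Finset.mem_filter]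
          by_cases e1 : i = z
          · subst e1
            rw [Equiv.swap_apply_left]
            simp [hz3]
          · by_cases e2 : i = z'
            · subst e2
              simp [hz2]
            · rw [Equiv.swap_apply_of_ne_of_ne e1 e2]
              simp [e1]
        rw [this, Finset.card_erase_of_mem hzm', hn]
        omega
    · apply Cn.symm
      apply fin1 hNODE hROW hr hd hd2 hk hw hsp ih ρ' ρ b a T S hT hS
        (by rw [← Fs_comm]; exact hF)
      intro i h1 h2 h3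
      by_contra hc
      exact hz ⟨i, by omega, h3, h2⟩

theorem main (hGRP : S_GRP) (hFSW : S_FSW) (hNODE : S_NODE) (hROW : S_ROW) : S_Q2 := by
  intro ι _ _ d r k w hr hd hd2 hk hw hsp ih S T hSc hTc hSw hTw
  obtain ⟨ρ, hS⟩ := hGRP ι d r 2 w S (by omega) (by omega) hSw (by rw [hSc]; exact hsp)
  obtain ⟨ρ', hT⟩ := hGRP ι d r 2 w T (by omega) (by omega) hTw (by rw [hTc]; exact hsp)
  have hex : ∃ a b, d - r ≤ Fs w ρ ρ' a b := by
    by_contra hc
    push Not at hc
    obtain ⟨t0, ht0, hc0, hs0⟩ := hS.NG 0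
    obtain ⟨t1, ht1, hc1, hs1⟩ := hS.NG 1
    have hcls : ∀ a, (cls w ρ a).card + (Fs w ρ ρ' a 0 + Fs w ρ ρ' a 1) = sg w (cls w ρ a) := by
      intro a
      have e0 := Fs_cell (w := w) ρ ρ' a 0
      have e1 := Fs_cell (w := w) ρ ρ' a 1
      have ef : (cls w ρ a).filter (fun i => ρ' i = 1) =
          (cls w ρ a).filter (fun i => ¬ ρ' i = 0) := by
        apply Finset.filter_congr
        intro i _
        constructor
        · intro h; rw [h]; decide
        · intro h; exact fin2 0 _ h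
      have e2 : ((cls w ρ a).filter (fun i => ρ' i = 0)).card +
          ((cls w ρ a).filter (fun i => ¬ ρ' i = 0)).card = (cls w ρ a).card :=
        Finset.card_filter_add_card_filter_not _
      have e3 : sg w ((cls w ρ a).filter (fun i => ρ' i = 0)) +
          sg w ((cls w ρ a).filter (fun i => ¬ ρ' i = 0)) = sg w (cls w ρ a) :=
        Finset.sum_filter_add_sum_filter_not _ _ _
      rw [ef] at e1
      omega
    have g0 := hcls 0
    have g1 := hcls 1
    have b00 := hc 0 0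
    have b01 := hc 0 1
    have b10 := hc 1 0
    have b11 := hc 1 1
    have htot : t0 * d + t1 * d = k * d := by
      rw [← hs0, ← hs1, ← hw]
      have e1 : cls w ρ 1 = (sp w).filter (fun i => ¬ ρ i = 0) := by
        unfold cls
        apply Finset.filter_congr
        intro i _
        constructor
        · intro h; rw [h]; decide
        · intro h; exact fin2 0 _ h
      have e2 : sg w (cls w ρ 0) + sg w (cls w ρ 1) = sg w (sp w) := by
        rw [e1]
        exact Finset.sum_filter_add_sum_filter_not _ _ _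
      rw [e2]
      unfold sg sp
      rw [Finset.sum_filter]
      apply Finset.sum_congr rfl
      intro i _
      by_cases h : w i = 0 <;> simp [h]
    have hk' : t0 + t1 = k := by
      have : (t0 + t1) * d = k * d := by rw [Nat.add_mul]; exact htot
      exact Nat.eq_of_mul_eq_mul_right (by omega) this
    have hN : ∀ t, t * d = t * (d - r) + t * r := by
      intro t; rw [← Nat.mul_add]; congr 1; omega
    have a0 := hN t0
    have a1 := hN t1
    have hb0 : t0 * (d - r) < 2 * (d - r) := by omega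
    have hb1 : t1 * (d - r) < 2 * (d - r) := by omega
    have := Nat.lt_of_mul_lt_mul_right hb0
    have := Nat.lt_of_mul_lt_mul_right hb1
    omega
  obtain ⟨a, b, hF⟩ := hex
  exact loop hFSW hNODE hROW hr hd hd2 hk hw hsp ih ρ a b S hS _ ρ' T hT hF rfl

end Pool.Agent.Helper42.PQ.Q2
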