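import Pool.Agent.Helper42.PQ.Spec
import Pool.Agent.Helper42.PQ.Base

set_option autoImplicit false

namespace Pool.Agent.Helper42.PQ.Q3

open Finset Pool.Agent.Helper42.PQ

variable {ι : Type} [Fintype ι] [DecidableEq ι] {d r q : ℕ} {w : ι → ℕ}

/-- the heavy part of a class -/
lemma heavy_sum (ρ : ι → Fin q) (j : Fin q) :
    (∑ v ∈ Finset.univ.filter (fun v : {v : ι // 2 ≤ w v} => ρ v.1 = j), (w v.1 - 1)) +
      (cls w ρ j).card = sg w (cls w ρ j) := by
  have h1 : ∑ v ∈ Finset.univ.filter (fun v : {v : ι // 2 ≤ w v} => ρ v.1 = j), (w v.1 - 1) =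
      ∑ i ∈ cls w ρ j, (w i - 1) := by
    rw [Finset.sum_filter]
    have h2 : ∑ i ∈ Finset.univ.filter (fun i => 2 ≤ w i), (if ρ i = j then (w i - 1) else 0) =
        ∑ v : {v : ι // 2 ≤ w v}, (if ρ v.1 = j then (w v.1 - 1) else 0) :=
      Finset.sum_subtype (s := Finset.univ.filter (fun i => 2 ≤ w i))
        (p := fun i => 2 ≤ w i) (fun i => by simp) (fun i => if ρ i = j then (w i - 1) else 0)
    refine Eq.trans ?_ (h2.symm.trans ?_)
    · rfl
    · unfold cls sp
      rw [Finset.filter_filter, Finset.sum_filter, Finset.sum_filter]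
      apply Finset.sum_congr rfl
      intro i _
      by_cases h3 : ρ i = j
      · by_cases h4 : w i = 0
        · simp [h3, h4]
        · by_cases h5 : 2 ≤ w i
          · simp [h3, h4, h5]
          · have h6 : w i = 1 := by omega
            simp [h3, h6]
      · simp [h3]
  rw [h1, Finset.card_eq_sum_ones, ← Finset.sum_add_distrib]
  apply Finset.sum_congr rfl
  intro i hi
  rw [mem_cls] at hi
  omega

/-- the heavy part of a grouping is a division -/
lemma isDv_of_NG (hd : r + 2 ≤ d) {ρ : ι → Fin q} (h : NG w r d ρ) :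
    IsDv (d - r) (fun v : {v : ι // 2 ≤ w v} => w v.1 - 1) (fun v => ρ v.1) := by
  intro j
  obtain ⟨t, ht, hc, hs⟩ := h j
  have h1 := heavy_sum (w := w) ρ j
  have h2 : (∑ v ∈ Finset.univ.filter (fun v : {v : ι // 2 ≤ w v} => ρ v.1 = j), (w v.1 - 1)) + 1
      = t * (d - r) := by
    rw [hc, hs] at h1
    have : t * d = t * (d - r) + t * r := by
      rw [← Nat.mul_add]; congr 1; omega
    omega
  exact ⟨t, by rw [h2, mul_comm]⟩

theorem main (hG : S_GRP) (hR : S_REAL) (hE : S_EXT) (hT : S_TWO) (hI : S_INF) (hS : S_SPOS) :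
    S_Q3 := by
  intro ι _ _ d r q k w hr hd hd2 hq hw hsp ih hdiv S T hSc hTc hSw hTw
  have hd1 : r + 1 ≤ d := by omega
  -- one direction of the argument
  have key : ∀ S T : Multiset (G ι d (r + 1)), S.card = k → T.card = k → Wt S = w → Wt T = w →
      Cn S T ∨ ((∃ m : G ι d (r + 1), Can w m) ∧
        ∀ m : G ι d (r + 1), Can w m → ∃ S' : Multiset (G ι d (r + 1)), m ∈ S' ∧ Cn S S') := by
    intro S T hSc hTc hSw hTw
    obtain ⟨ρS, hρS⟩ := hG ι d r q w S (by omega) (by omega) hSw (by rw [hSc]; exact hsp)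
    obtain ⟨ρT, hρT⟩ := hG ι d r q w T (by omega) (by omega) hTw (by rw [hTc]; exact hsp)
    have hDS := isDv_of_NG hd hρS.NG
    have hDT := isDv_of_NG hd hρT.NG
    have hcon := hdiv _ _ hDS hDT
    have hind := DCn.induction (P := fun κ : {v : ι // 2 ≤ w v} → Fin q =>
      (∃ ρ' : ι → Fin q, NG w r d ρ' ∧ (∀ v : {v : ι // 2 ≤ w v}, ρ' v.1 = κ v) ∧
        ∀ S' : Multiset (G ι d (r + 1)), Cf w ρ' S' → Cn S S') ∨
      ((∃ m : G ι d (r + 1), Can w m) ∧
        ∀ m : G ι d (r + 1), Can w m → ∃ S' : Multiset (G ι d (r + 1)), m ∈ S' ∧ Cn S S'))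
      hcon ?_ ?_
    · rcases hind with ⟨ρ', hNG, hext, hall⟩ | halt
      · left
        obtain ⟨S', hS'⟩ := hR ι d r q w ρ' hr hd1 hNG
        refine (hall S' hS').trans ?_
        refine hS ι d r q w ρ' ρT S' T hr hd1 hS' hρT ?_
        intro i hi
        exact hext ⟨i, hi⟩
      · right; exact halt
    · left
      refine ⟨ρS, hρS.NG, fun v => rfl, fun S' hS' => ?_⟩
      exact hS ι d r q w ρS ρS S S' hr hd1 hρS hS' (fun i _ => rfl)
    · intro σ σ' hstep hP
      rcases hP with ⟨ρ', hNG, hext, hall⟩ | halt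
      · obtain ⟨hD1, hD2, a, b, hTO⟩ := hstep
        have hTO' : TwoOn Set.univ a b (fun v : {v : ι // 2 ≤ w v} => ρ' v.1) σ' := by
          intro v hv
          have := hTO v hv
          show (ρ' v.1 ≠ a → ρ' v.1 ≠ b → σ' v = ρ' v.1) ∧
            ((ρ' v.1 = a ∨ ρ' v.1 = b) → (σ' v = a ∨ σ' v = b))
          rw [hext v]
          exact this
        obtain ⟨S', hS'⟩ := hR ι d r q w ρ' hr hd1 hNG
        by_cases hF : Fea w r d σ'
        · left
          obtain ⟨ρ'', hNG'', hext'', hTO''⟩ := hE ι d r q w ρ' σ' a b (by omega) hd hNG hD2 hTO' hF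
          refine ⟨ρ'', hNG'', hext'', fun S'' hS'' => ?_⟩
          refine (hall S' hS').trans ?_
          exact hT ι d r q k w ρ' ρ'' a b S' S'' hr hd1 hq hw ih hTO'' hS' hS''
        · right
          obtain ⟨hm, hI2⟩ := hI ι d r q k w ρ' σ' a b hr hd hd2 hq hw ih hNG hD2 hTO' hF
          refine ⟨hm, fun m hmm => ?_⟩
          obtain ⟨S'', hm'', hc''⟩ := hI2 m hmm S' hS'
          exact ⟨S'', hm'', (hall S' hS').trans hc''⟩
      · right; exact halt
  rcases key S T hSc hTc hSw hTw with h | ⟨⟨m, hm⟩, hall⟩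
  · exact h
  · rcases key T S hTc hSc hTw hSw with h | ⟨_, hall'⟩
    · exact h.symm
    · obtain ⟨S', hmS, hSS⟩ := hall m hm
      obtain ⟨T', hmT, hTT⟩ := hall' m hm
      refine hSS.trans (Cn.trans ?_ hTT.symm)
      have hS'c : S'.card = k := by rw [← hSS.card_eq, hSc]
      have hT'c : T'.card = k := by rw [← hTT.card_eq, hTc]
      have hS'w : Wt S' = w := by rw [← hSS.Wt_eq, hSw]
      have hT'w : Wt T' = w := by rw [← hTT.Wt_eq, hTw]
      have hk : 0 < S'.card := Multiset.card_pos_iff_exists_mem.mpr ⟨m, hmS⟩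
      have hk1 : k = (k - 1) + 1 := by omega
      refine Cn.of_common (k := k - 1) hmS hmT (by omega) (by omega) hS'w hT'w ?_
      apply ih (k - 1) (by omega)
      have h1 := sum_sub_of_le w m.1 (fun i => by rw [← hS'w]; exact le_Wt hmS i)
      rw [m.2.1, hw] at h1
      have h2 : k * d = (k - 1) * d + d := by
        conv_lhs => rw [hk1]
        ring
      omega

end Pool.Agent.Helper42.PQ.Q3
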