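import Pool.Agent.Helper42.PQ.Defs

set_option autoImplicit false

/-!
Statements of the parts of swarm PQ.  Part XXX is `theorem main (deps : S_YYY) : S_XXX`.
-/

namespace Pool.Agent.Helper42.PQ

open Finset

/-! ## L: fibres with at most `k r + 1` variables -/

/-- `k = 3` (from `Pool.Agent.Helper46.PV.nodes_conn` on the subtype `↥D`) -/
def S_L3 : Prop := ∀ (ι : Type) [Fintype ι] [DecidableEq ι] (u : ι → ℕ) (r d : ℕ) (D : Finset ι),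
  2 ≤ r → D.card = 3 * r + 1 → sg u D = 3 * d →
  ∀ p q : Finset ι × ι, Nd u r d D p → Nd u r d D q → NCn u r d D p q

/-- change the centre to the largest variable -/
def S_LA : Prop := ∀ (ι : Type) [Fintype ι] [DecidableEq ι] (u : ι → ℕ) (r d k : ℕ)
  (D : Finset ι) (o : ι), 2 ≤ r → 4 ≤ k → D.card = k * r + 1 → sg u D = k * d →
  o ∈ D → (∀ i ∈ D, u i ≤ u o) →
  ∀ (P : Finset ι) (x : ι), Nd u r d D (P, x) → o ∉ P → x ≠ o → NCn u r d D (P, x) (P, o)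

/-- nodes with the largest variable in `P` (uses LA) -/
def S_LB : Prop := ∀ (ι : Type) [Fintype ι] [DecidableEq ι] (u : ι → ℕ) (r d k : ℕ)
  (D : Finset ι) (o : ι), 2 ≤ r → 4 ≤ k → D.card = k * r + 1 → sg u D = k * d →
  o ∈ D → (∀ i ∈ D, u i ≤ u o) →
  ∀ (P : Finset ι) (x : ι), Nd u r d D (P, x) → o ∈ P →
    ∃ Q : Finset ι, o ∉ Q ∧ Nd u r d D (Q, o) ∧ NCn u r d D (P, x) (Q, o)

/-- one exchange of nodes centred at the largest variable -/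
def S_LC : Prop := ∀ (ι : Type) [Fintype ι] [DecidableEq ι] (u : ι → ℕ) (r d k : ℕ)
  (D : Finset ι) (o : ι), 2 ≤ r → 4 ≤ k → D.card = k * r + 1 → sg u D = k * d →
  o ∈ D → (∀ i ∈ D, u i ≤ u o) →
  ∀ (E : Finset ι) (b c : ι), E.card + 1 = r → b ∉ E → c ∉ E → b ≠ c →
    Nd u r d D (insert b E, o) → Nd u r d D (insert c E, o) →
    NCn u r d D (insert b E, o) (insert c E, o)

/-- all nodes are connected (from L3, LA, LB, LC and `Helper46.PV.exch`) -/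
def S_LN : Prop := ∀ (ι : Type) [Fintype ι] [DecidableEq ι] (u : ι → ℕ) (r d k : ℕ)
  (D : Finset ι), 2 ≤ r → 3 ≤ k → D.card = k * r + 1 → sg u D = k * d →
  ∀ p q : Finset ι × ι, Nd u r d D p → Nd u r d D q → NCn u r d D p q

/-- existence of a basic node -/
def S_NE : Prop := ∀ (ι : Type) [Fintype ι] [DecidableEq ι] (u : ι → ℕ) (r d k : ℕ)
  (D : Finset ι), 1 ≤ r → 1 ≤ k → D.card = k * r + 1 → sg u D = k * d →
  ∃ p : Finset ι × ι, Nd u r d D p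

/-- `k r + 1` variables: the fibre is nonempty (uses NE) -/
def S_FD : Prop := ∀ (ι : Type) [Fintype ι] [DecidableEq ι] (d r k : ℕ) (D : Finset ι)
  (w : ι → ℕ), 1 ≤ r → 1 ≤ k → D.card = k * r + 1 → (∀ i, i ∉ D → w i = 0) →
  ∑ i, w i = k * d → Fac ι d (r + 1) k w

/-- a configuration with at least `k r` variables is connected to one containing a node -/
def S_CNT : Prop := ∀ (ι : Type) [Fintype ι] [DecidableEq ι] (d r k : ℕ) (D : Finset ι)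
  (w : ι → ℕ) (S : Multiset (G ι d (r + 1))), 2 ≤ r → 1 ≤ k → D.card = k * r + 1 →
  (∀ i, i ∉ D → w i = 0) → k * r ≤ (sp w).card → S.card = k → Wt S = w →
  ∃ (p : Finset ι × ι) (m : G ι d (r + 1)) (S' : Multiset (G ι d (r + 1))),
    m ∈ S' ∧ m.1 = bvec w d p ∧ Nd w r d D p ∧ Cn S S'

/-- few variables: reduction to one more variable (uses FD) -/
def S_SPL : Prop := ∀ (ι : Type) [Fintype ι] [DecidableEq ι] (d r k : ℕ) (D : Finset ι)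
  (w : ι → ℕ), 2 ≤ r → 2 ≤ k → r + 1 ≤ d → D.card = k * r + 1 → (∀ i, i ∉ D → w i = 0) →
  ∑ i, w i = k * d → (sp w).card + 2 ≤ k * r + 1 →
  (∀ w' : ι → ℕ, (∀ i, i ∉ D → w' i = 0) → ∑ i, w' i = k * d →
    (sp w').card = (sp w).card + 1 → Conn ι d (r + 1) k w') →
  Conn ι d (r + 1) k w

/-- connectedness inside `D` (from LN, FD, CNT, SPL) -/
def S_LL : Prop := ∀ (ι : Type) [Fintype ι] [DecidableEq ι] (d r k : ℕ) (D : Finset ι)
  (w : ι → ℕ), 2 ≤ r → r + 1 ≤ d → D.card = k * r + 1 → (∀ i, i ∉ D → w i = 0) →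
  ∑ i, w i = k * d → Conn ι d (r + 1) k w

/-- dropping unused variables -/
def S_TR : Prop := ∀ (ι : Type) [Fintype ι] [DecidableEq ι] (m d s k : ℕ) (w : ι → ℕ),
  (Conn (ι ⊕ Fin m) d s k (Sum.elim w (fun _ => 0)) → Conn ι d s k w) ∧
  (Fac (ι ⊕ Fin m) d s k (Sum.elim w (fun _ => 0)) → Fac ι d s k w)

/-- at most `k r + 1` variables (from LL, FD, TR) -/
def S_L : Prop := ∀ (ι : Type) [Fintype ι] [DecidableEq ι] (d r k : ℕ) (w : ι → ℕ),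
  2 ≤ r → r + 1 ≤ d → ∑ i, w i = k * d → (sp w).card ≤ k * r + 1 →
  Conn ι d (r + 1) k w ∧ (1 ≤ k → Fac ι d (r + 1) k w)

/-! ## groupings -/

/-- every configuration with `k r + q` variables can be grouped -/
def S_GRP : Prop := ∀ (ι : Type) [Fintype ι] [DecidableEq ι] (d r q : ℕ) (w : ι → ℕ)
  (S : Multiset (G ι d (r + 1))), 1 ≤ r → 1 ≤ q → Wt S = w →
  (sp w).card = S.card * r + q → ∃ ρ : ι → Fin q, Cf w ρ S

/-- realisation (uses L) -/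
def S_REAL : Prop := ∀ (ι : Type) [Fintype ι] [DecidableEq ι] (d r q : ℕ) (w : ι → ℕ)
  (ρ : ι → Fin q), 2 ≤ r → r + 1 ≤ d → NG w r d ρ →
  ∃ S : Multiset (G ι d (r + 1)), Cf w ρ S

/-- the same grouping (uses L) -/
def S_SAME : Prop := ∀ (ι : Type) [Fintype ι] [DecidableEq ι] (d r q : ℕ) (w : ι → ℕ)
  (ρ ρ' : ι → Fin q) (S S' : Multiset (G ι d (r + 1))), 2 ≤ r → r + 1 ≤ d →
  Cf w ρ S → Cf w ρ' S' → (∀ i, w i ≠ 0 → ρ i = ρ' i) → Cn S S'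

/-- swapping two variables of weight one between two classes -/
def S_FSW : Prop := ∀ (ι : Type) [Fintype ι] [DecidableEq ι] (d r q : ℕ) (w : ι → ℕ)
  (ρ : ι → Fin q) (z z' : ι) (S : Multiset (G ι d (r + 1))), w z = 1 → w z' = 1 →
  ρ z ≠ ρ z' → Cf w ρ S →
  ∃ S' : Multiset (G ι d (r + 1)), Cf w (fun i => ρ (Equiv.swap z z' i)) S' ∧ Cn S S'

/-- groupings which agree on the variables of weight at least two (uses FSW, SAME) -/
def S_SPOS : Prop := ∀ (ι : Type) [Fintype ι] [DecidableEq ι] (d r q : ℕ) (w : ι → ℕ)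
  (ρ ρ' : ι → Fin q) (S S' : Multiset (G ι d (r + 1))), 2 ≤ r → r + 1 ≤ d →
  Cf w ρ S → Cf w ρ' S' → (∀ i, 2 ≤ w i → ρ i = ρ' i) → Cn S S'

/-- a common basic node (uses L) -/
def S_NODE : Prop := ∀ (ι : Type) [Fintype ι] [DecidableEq ι] (d r q q' k : ℕ) (w : ι → ℕ)
  (ρ : ι → Fin q) (ρ' : ι → Fin q') (a : Fin q) (b : Fin q') (p : Finset ι × ι)
  (S S' : Multiset (G ι d (r + 1))), 2 ≤ r → r + 1 ≤ d → ∑ i, w i = (k + 1) * d →
  Conn ι d (r + 1) k (w - bvec w d p) → Bn w r d p.1 p.2 →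
  p.1 ⊆ cls w ρ a → p.2 ∈ cls w ρ a → p.1 ⊆ cls w ρ' b → p.2 ∈ cls w ρ' b →
  Cf w ρ S → Cf w ρ' S' → Cn S S'

/-- re-division of two classes (uses L) -/
def S_TWO : Prop := ∀ (ι : Type) [Fintype ι] [DecidableEq ι] (d r q k : ℕ) (w : ι → ℕ)
  (ρ ρ' : ι → Fin q) (a b : Fin q) (S S' : Multiset (G ι d (r + 1))), 2 ≤ r → r + 1 ≤ d →
  3 ≤ q → ∑ i, w i = k * d →
  (∀ k' < k, ∀ w' : ι → ℕ, ∑ i, w' i = k' * d → Conn ι d (r + 1) k' w') →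
  TwoOn {v | w v ≠ 0} a b ρ ρ' → Cf w ρ S → Cf w ρ' S' → Cn S S'

/-! ## q = 2 -/

/-- numerical lemma: a basic node in one of two complementary parts of a class -/
def S_ROW : Prop := ∀ (ι : Type) [Fintype ι] [DecidableEq ι] (w : ι → ℕ) (X Y : Finset ι)
  (r d t : ℕ), 2 ≤ r → r + 2 ≤ d → d ≤ 2 * r + 2 → 1 ≤ t → Disjoint X Y →
  (∀ i ∈ X, 1 ≤ w i) → (∀ i ∈ Y, 2 ≤ w i) → X.card + Y.card = t * r + 1 →
  sg w X + sg w Y = t * d → X.card + (d - r) ≤ sg w X →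
  (∃ P x, P ⊆ X ∧ x ∈ X ∧ Bn w r d P x) ∨ (∃ P x, P ⊆ Y ∧ x ∈ Y ∧ Bn w r d P x)

/-- `k r + 2` variables (from L, GRP, FSW, NODE, ROW, SAME) -/
def S_Q2 : Prop := ∀ (ι : Type) [Fintype ι] [DecidableEq ι] (d r k : ℕ) (w : ι → ℕ),
  2 ≤ r → r + 2 ≤ d → d ≤ 2 * r + 2 → 3 ≤ k → ∑ i, w i = k * d → (sp w).card = k * r + 2 →
  (∀ k' < k, ∀ w' : ι → ℕ, ∑ i, w' i = k' * d → (sp w').card ≤ k' * r + 2 →
    Conn ι d (r + 1) k' w') → Conn ι d (r + 1) k w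

/-! ## q ≥ 3 -/

/-- a division of the heavy variables is feasible: no class has too many variables -/
def Fea {ι : Type} [Fintype ι] {q : ℕ} (w : ι → ℕ) (r d : ℕ)
    (κ : {v : ι // 2 ≤ w v} → Fin q) : Prop :=
  ∀ j, (Finset.univ.filter (fun v => κ v = j)).card ≤
    ((∑ v ∈ Finset.univ.filter (fun v => κ v = j), (w v.1 - 1)) + 1) / (d - r) * r + 1

/-- extension of a step of divisions to a step of groupings -/
def S_EXT : Prop := ∀ (ι : Type) [Fintype ι] [DecidableEq ι] (d r q : ℕ) (w : ι → ℕ)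
  (ρ : ι → Fin q) (κ : {v : ι // 2 ≤ w v} → Fin q) (a b : Fin q), 1 ≤ r → r + 2 ≤ d →
  NG w r d ρ → IsDv (d - r) (fun v : {v : ι // 2 ≤ w v} => w v.1 - 1) κ →
  TwoOn Set.univ a b (fun v : {v : ι // 2 ≤ w v} => ρ v.1) κ → Fea w r d κ →
  ∃ ρ' : ι → Fin q, NG w r d ρ' ∧ (∀ v : {v : ι // 2 ≤ w v}, ρ' v.1 = κ v) ∧
    TwoOn {v | w v ≠ 0} a b ρ ρ'

/-- a generator made of variables of weight two -/
def Can {ι : Type} [Fintype ι] {d s : ℕ} (w : ι → ℕ) (m : G ι d s) : Prop :=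
  ∀ v, m.1 v ≤ 2 ∧ (m.1 v ≠ 0 → w v = 2)

/-- an infeasible step: the configuration is connected to one containing any given
generator made of variables of weight two (uses L, TWO) -/
def S_INF : Prop := ∀ (ι : Type) [Fintype ι] [DecidableEq ι] (d r q k : ℕ) (w : ι → ℕ)
  (ρ : ι → Fin q) (κ : {v : ι // 2 ≤ w v} → Fin q) (a b : Fin q), 2 ≤ r → r + 2 ≤ d →
  d ≤ 2 * r + 2 → 3 ≤ q → ∑ i, w i = k * d →
  (∀ k' < k, ∀ w' : ι → ℕ, ∑ i, w' i = k' * d → Conn ι d (r + 1) k' w') →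
  NG w r d ρ → IsDv (d - r) (fun v : {v : ι // 2 ≤ w v} => w v.1 - 1) κ →
  TwoOn Set.univ a b (fun v : {v : ι // 2 ≤ w v} => ρ v.1) κ → ¬ Fea w r d κ →
  (∃ m : G ι d (r + 1), Can w m) ∧
  ∀ m : G ι d (r + 1), Can w m → ∀ S : Multiset (G ι d (r + 1)), Cf w ρ S →
    ∃ S' : Multiset (G ι d (r + 1)), m ∈ S' ∧ Cn S S'

/-- `q ≥ 3` (from GRP, EXT, TWO, INF, SPOS) -/
def S_Q3 : Prop := ∀ (ι : Type) [Fintype ι] [DecidableEq ι] (d r q k : ℕ) (w : ι → ℕ),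
  2 ≤ r → r + 2 ≤ d → d ≤ 2 * r + 2 → 3 ≤ q → ∑ i, w i = k * d →
  (sp w).card = k * r + q →
  (∀ k' < k, ∀ w' : ι → ℕ, ∑ i, w' i = k' * d → Conn ι d (r + 1) k' w') →
  (∀ ρ κ : {v : ι // 2 ≤ w v} → Fin q,
    IsDv (d - r) (fun v : {v : ι // 2 ≤ w v} => w v.1 - 1) ρ →
    IsDv (d - r) (fun v : {v : ι // 2 ≤ w v} => w v.1 - 1) κ →
    DCn (d - r) (fun v : {v : ι // 2 ≤ w v} => w v.1 - 1) ρ κ) →
  Conn ι d (r + 1) k w

/-! ## divisions modulo N -/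

/-- all divisions are connected -/
def S_MP : Prop := ∀ (N K : ℕ), GoodNK N K → ∀ (α β : Type) [Fintype α] [DecidableEq α]
  [Fintype β] [DecidableEq β] (x : α → ℕ) (ρ κ : α → β), IsDv N x ρ → IsDv N x κ →
  (∑ v, x v) + Fintype.card β ≤ N * K → DCn N x ρ κ

/-- merging two items -/
def S_M1 : Prop := ∀ (N K : ℕ) (α β : Type) [Fintype α] [DecidableEq α]
  [Fintype β] [DecidableEq β] (x : α → ℕ) (ρ κ : α → β), 2 ≤ N → MIH N K (Fintype.card α) →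
  (∑ v, x v) + Fintype.card β ≤ N * K → BadP N x ρ κ →
  ∀ v w, v ≠ w → ρ v = ρ w → κ v = κ w → False

/-- items of residue zero -/
def S_M2 : Prop := ∀ (N K : ℕ) (α β : Type) [Fintype α] [DecidableEq α]
  [Fintype β] [DecidableEq β] (x : α → ℕ) (ρ κ : α → β), 2 ≤ N → MIH N K (Fintype.card α) →
  (∑ v, x v) + Fintype.card β ≤ N * K → BadP N x ρ κ → ∀ v, ¬ N ∣ x v

/-- a common class -/
def S_M3 : Prop := ∀ (N K : ℕ) (α β : Type) [Fintype α] [DecidableEq α]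
  [Fintype β] [DecidableEq β] (x : α → ℕ) (ρ κ : α → β), 2 ≤ N → MIH N K (Fintype.card α) →
  (∑ v, x v) + Fintype.card β ≤ N * K → BadP N x ρ κ → ∀ a b, ∃ v, ¬ (ρ v = a ↔ κ v = b)

/-- the properties of the pairs in a minimal counterexample -/
def OrtF {α β : Type} [Fintype α] [DecidableEq α] [Fintype β] [DecidableEq β] (N : ℕ)
    (x : α → ℕ) (R : (α → β) → (α → β) → Prop) : Prop :=
  (∀ v, ¬ N ∣ x v) ∧ 2 ≤ Fintype.card β ∧
  ∀ ρ κ, R ρ κ → IsDv N x ρ ∧ IsDv N x κ ∧ (∀ v w, v ≠ w → ρ v = ρ w → κ v ≠ κ w) ∧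
    (∀ a b, ∃ v, ¬ (ρ v = a ↔ κ v = b)) ∧ R κ ρ ∧ ∀ ρ', DStep N x ρ ρ' → R ρ' κ

/-- swapping two subsets with the same sum -/
def S_M4 : Prop := ∀ (N : ℕ) (α β : Type) [Fintype α] [DecidableEq α] [Fintype β]
  [DecidableEq β] (x : α → ℕ) (R : (α → β) → (α → β) → Prop), 2 ≤ N → OrtF N x R →
  ∀ ρ κ, R ρ κ → ∀ a b, a ≠ b → ∀ S T : Finset α, (∀ v ∈ S, ρ v = a) → (∀ v ∈ T, ρ v = b) →
  sx x S ≡ sx x T [MOD N] →
  R (fun v => if v ∈ S then b else if v ∈ T then a else ρ v) κ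

/-- classes are zero-sum free and have at least three items (uses M4) -/
def S_M5 : Prop := ∀ (N : ℕ) (α β : Type) [Fintype α] [DecidableEq α] [Fintype β]
  [DecidableEq β] (x : α → ℕ) (R : (α → β) → (α → β) → Prop), 2 ≤ N → OrtF N x R →
  ∀ ρ κ, R ρ κ → ∀ a, (∀ S : Finset α, (∀ v ∈ S, ρ v = a) → S.Nonempty → ¬ N ∣ sx x S) ∧
    3 ≤ (Finset.univ.filter (fun v => ρ v = a)).card

/-- two items in a common column are compatible (uses M4) -/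
def S_M7 : Prop := ∀ (N : ℕ) (α β : Type) [Fintype α] [DecidableEq α] [Fintype β]
  [DecidableEq β] (x : α → ℕ) (R : (α → β) → (α → β) → Prop), 2 ≤ N → OrtF N x R →
  ∀ ρ κ, R ρ κ → ∀ v w, v ≠ w → κ v = κ w →
    cmpt N (x v % N) (ty N x ρ (ρ v)) (x w % N) (ty N x ρ (ρ w))

/-- the cells of a pair of divisions -/
def cells {α β : Type} [Fintype α] [DecidableEq β] (N : ℕ) (x : α → ℕ) (ρ κ : α → β) :
    Set (ℕ × Multiset ℕ × Multiset ℕ) :=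
  {c | ∃ v, c = (x v % N, ty N x ρ (ρ v), ty N x κ (κ v))}

/-- the cells form a closed family (uses M4, M5, M7) -/
def S_M8 : Prop := ∀ (N B : ℕ) (α β : Type) [Fintype α] [DecidableEq α] [Fintype β]
  [DecidableEq β] (x : α → ℕ) (R : (α → β) → (α → β) → Prop), 2 ≤ N → OrtF N x R →
  (∀ ρ κ, R ρ κ → ∀ a b, a ≠ b → (ty N x ρ a).sum + (ty N x ρ b).sum ≤ B) →
  ClosedFam N B {C | ∃ ρ κ, R ρ κ ∧ C = cells N x ρ κ}

/-- elimination for `N ≤ 10` (finite check) -/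
def S_E10 : Prop := ∀ (N B : ℕ), 2 ≤ N → N ≤ 10 →
  ∀ F : Set (Set (ℕ × Multiset ℕ × Multiset ℕ)), ClosedFam N B F → ∀ C ∈ F, C = ∅

/-- elimination for `N = 11` with a bound (finite check) -/
def S_E11 : Prop := ∀ F : Set (Set (ℕ × Multiset ℕ × Multiset ℕ)), ClosedFam 11 31 F →
  (∀ C ∈ F, ∀ a τ γ, (a, τ, γ) ∈ C → τ.sum ≤ 21 ∧ γ.sum ≤ 21) → ∀ C ∈ F, C = ∅

/-- three classes (finite check): `(N, K) = (11, 5)` or `(12, 3)` -/
def S_E33 : Prop := ∀ N K : ℕ, ((N = 11 ∧ K = 5) ∨ (N = 12 ∧ K = 3)) →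
  ∀ M : Fin 3 → Fin 3 → ℕ, (∀ i j, 1 ≤ M i j ∧ M i j < N) →
  (∀ i, N ∣ (∑ j, M i j) + 1) → (∀ j, N ∣ (∑ i, M i j) + 1) →
  (∑ i, ∑ j, M i j) + 3 ≤ N * K →
  (∃ i i', i ≠ i' ∧ ∃ S T : Finset (Fin 3), S ≠ T ∧
    (∑ j ∈ S, M i j) ≡ (∑ j ∈ T, M i' j) [MOD N]) ∨
  (∃ j j', j ≠ j' ∧ ∃ S T : Finset (Fin 3), S ≠ T ∧
    (∑ i ∈ S, M i j) ≡ (∑ i ∈ T, M i j') [MOD N])

/-- three classes: no minimal counterexample (uses M5, M7, E33) -/
def S_M9 : Prop := ∀ (N K : ℕ), ((N = 11 ∧ K = 5) ∨ (N = 12 ∧ K = 3)) →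
  ∀ (α β : Type) [Fintype α] [DecidableEq α] [Fintype β]
  [DecidableEq β] (x : α → ℕ) (R : (α → β) → (α → β) → Prop), OrtF N x R →
  Fintype.card β = 3 → (∑ v, x v) + 3 ≤ N * K → ∀ ρ κ, ¬ R ρ κ

/-! ## assembly of the positive part -/

/-- from L, Q2, Q3, MP -/
def S_POS : Prop := ∀ (ι : Type) [Fintype ι] [DecidableEq ι] (d r K : ℕ), 2 ≤ r →
  r + 2 ≤ d → d ≤ 2 * r + 2 →
  (∀ (k : ℕ) (w : ι → ℕ), ∑ i, w i = k * d → (sp w).card ≤ k * r + 2 →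
    Conn ι d (r + 1) k w) ∧
  (GoodNK (d - r) K → ∀ k ≤ K, ∀ w : ι → ℕ, ∑ i, w i = k * d → Conn ι d (r + 1) k w)

/-! ## negative part -/

/-- closedness of the class of configurations grouped along a closed family of groupings
(uses GRP) -/
def S_CLO : Prop := ∀ (ι : Type) [Fintype ι] [DecidableEq ι] (d r q k : ℕ) (w : ι → ℕ)
  (Q : (ι → Fin q) → Prop), 1 ≤ r → 1 ≤ d → 2 ≤ q → ∑ i, w i = k * d →
  (sp w).card = k * r + q →
  (∀ (ρ ρ' : ι → Fin q) (a b : Fin q), Q ρ → NG w r d ρ → NG w r d ρ' →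
    TwoOn {v | w v ≠ 0} a b ρ ρ' → Q ρ') →
  ∀ (A : Multiset (G ι d (r + 1))) (u v u' v' : G ι d (r + 1)), u.1 + v.1 = u'.1 + v'.1 →
    Wt (u ::ₘ v ::ₘ A) = w → (∃ ρ, Q ρ ∧ Cf w ρ (u ::ₘ v ::ₘ A)) →
    ∃ ρ, Q ρ ∧ Cf w ρ (u' ::ₘ v' ::ₘ A)

end Pool.Agent.Helper42.PQ
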