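import Pool.Agent.Helper42.PQ.Final
import Pool.Agent.Helper42.PQ.BR
import Pool.Agent.Helper42.PQ.Q2
import Pool.Agent.Helper42.PQ.Q3
import Pool.Agent.Helper42.PQ.POS
import Pool.Agent.Helper31.PQ.LC
import Pool.Agent.Helper31.PQ.LL
import Pool.Agent.Helper31.PQ.ROW
import Pool.Agent.Helper32.PQ.N10
import Pool.Agent.Helper32.PQ.N11
import Pool.Agent.Helper45.PQ.M1
import Pool.Agent.Helper45.PQ.M2
import Pool.Agent.Helper45.PQ.M3
import Pool.Agent.Helper48.PQ.L3
import Pool.Agent.Helper48.PQ.LN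
import Pool.Agent.Helper50.PQ.LA
import Pool.Agent.Helper52.PQ.GRP
import Pool.Agent.Helper52.PQ.INF
import Pool.Agent.Helper54.PQ.EXT
import Pool.Agent.Helper54.PQ.LB
import Pool.Agent.Helper65.PQ.FSW
import Pool.Agent.Helper65.PQ.L
import Pool.Agent.Helper65.PQ.NODE
import Pool.Agent.Helper65.PQ.REAL
import Pool.Agent.Helper65.PQ.SAME
import Pool.Agent.Helper65.PQ.SPL
import Pool.Agent.Helper65.PQ.SPOS
import Pool.Agent.Helper65.PQ.TR
import Pool.Agent.Helper65.PQ.TWO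
import Pool.Agent.Helper70.PQ.CLO
import Pool.Agent.Helper70.PQ.FD
import Pool.Agent.Helper70.PQ.NE
import Pool.Agent.Helper94.PQ.MP
import Pool.Agent.Helper95.PQ.M4
import Pool.Agent.Helper95.PQ.M5
import Pool.Agent.Helper95.PQ.M7
import Pool.Agent.Helper95.PQ.M8
import Pool.Agent.Helper97.PQ.CNT
import Pool.Agent.Helper97.PQ.E10
import Pool.Agent.Helper97.PQ.E11

set_option autoImplicit false

namespace Pool.Agent.Helper42.PQ.All

open Pool.Agent.Helper42.PQ Pool.Agent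

theorem sL : S_L := by
  have l3 : S_L3 := Helper48.PQ.L3.main
  have la : S_LA := Helper50.PQ.LA.main
  have lb : S_LB := Helper54.PQ.LB.main la
  have lc : S_LC := Helper31.PQ.LC.main
  have ln : S_LN := Helper48.PQ.LN.main l3 la lb lc
  have fd : S_FD := Helper70.PQ.FD.main Helper70.PQ.NE.main
  have ll : S_LL := Helper31.PQ.LL.main ln fd Helper97.PQ.CNT.main (Helper65.PQ.SPL.main fd)
  exact Helper65.PQ.L.main ll fd Helper65.PQ.TR.main

theorem sSPOS : S_SPOS := Helper65.PQ.SPOS.main Helper65.PQ.FSW.main (Helper65.PQ.SAME.main sL)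

theorem sREAL : S_REAL := Helper65.PQ.REAL.main sL

theorem sTWO : S_TWO := Helper65.PQ.TWO.main sL

theorem sNODE : S_NODE := Helper65.PQ.NODE.main sL

theorem sQ2 : S_Q2 := Q2.main Helper52.PQ.GRP.main Helper65.PQ.FSW.main sNODE
  Helper31.PQ.ROW.main

theorem sQ3 : S_Q3 := Q3.main Helper52.PQ.GRP.main sREAL Helper54.PQ.EXT.main sTWO
  (Helper52.PQ.INF.main sL sTWO sREAL) sSPOS

theorem sMP (h9 : S_M9) : S_MP :=
  have m4 : S_M4 := Helper95.PQ.M4.main
  have m5 : S_M5 := Helper95.PQ.M5.main m4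
  have m7 : S_M7 := Helper95.PQ.M7.main m4
  Helper94.PQ.MP.main Helper45.PQ.M1.main Helper45.PQ.M2.main Helper45.PQ.M3.main
    (Helper95.PQ.M8.main m4 m5 m7) Helper97.PQ.E10.main Helper97.PQ.E11.main h9

theorem sPOS (h9 : S_M9) : S_POS := POS.main sL sQ2 sQ3 (sMP h9)

theorem sN10 : S_N10 := Helper32.PQ.N10.main sREAL (Helper70.PQ.CLO.main Helper52.PQ.GRP.main)

theorem sN11 : S_N11 := Helper32.PQ.N11.main sREAL (Helper70.PQ.CLO.main Helper52.PQ.GRP.main)

end Pool.Agent.Helper42.PQ.All
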