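import Pool.Agent.Helper42.PQ.Spec3
import Pool.Agent.Helper42.PQ.Base

set_option autoImplicit false
set_option linter.unusedSectionVars false

namespace Pool.Agent.Helper42.PQ.T6

open Finset Pool.Agent.Helper42.PQ

variable {ι : Type} [Fintype ι] [DecidableEq ι] {d s : ℕ}

lemma card_sp_Wt (S : Multiset (G ι d s)) : (sp (Wt S)).card ≤ S.card * s := by
  induction S using Multiset.induction_on with
  | empty => simp [Wt_zero, sp]
  | cons u S ih =>
    rw [Wt_cons, Multiset.card_cons]
    have h1 : sp (u.1 + Wt S) ⊆ sp u.1 ∪ sp (Wt S) := by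
      intro i hi
      rw [mem_sp] at hi
      rw [Finset.mem_union, mem_sp, mem_sp]
      have hi' : u.1 i + Wt S i ≠ 0 := hi
      omega
    have h2 := Finset.card_le_card h1
    have h3 := Finset.card_union_le (sp u.1) (sp (Wt S))
    have h4 := card_sp_le u
    have h5 : (S.card + 1) * s = S.card * s + s := by ring
    omega

lemma vac {k : ℕ} {w : ι → ℕ} (h : k * s < (sp w).card) : Conn ι d s k w := by
  intro S T hS _ hSw _
  have h1 := card_sp_Wt S
  rw [hSw, hS] at h1
  omega

theorem main (hL : S_L) (hT1 : S_T1) (hT2 : S_T2) (hT4 : S_T4) (hT5 : S_T5) : S_T6 := by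
  intro n d k w hw hnd
  have hcard : (sp w).card ≤ n := by
    refine le_trans (Finset.card_le_univ _) ?_
    rw [Fintype.card_fin]
  have hd7 : 7 ≤ d := by omega
  have hlow : ∀ (k : ℕ) (w : Fin n → ℕ), ∑ i, w i = k * d → (sp w).card ≤ k * 2 + 1 →
      Conn (Fin n) d 3 k w := fun k w h1 h2 => (hL (Fin n) d 2 k w le_rfl (by omega) h1 h2).1
  have h3 : ∀ w : Fin n → ℕ, ∑ i, w i = 3 * d → Conn (Fin n) d 3 3 w := by
    intro w hw
    have hcard : (sp w).card ≤ n := by
      refine le_trans (Finset.card_le_univ _) ?_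
      rw [Fintype.card_fin]
    rcases Nat.lt_or_ge (sp w).card 8 with h | h
    · exact hlow 3 w hw (by omega)
    · rcases (by omega : (sp w).card = 8 ∨ (sp w).card = 9 ∨ 9 < (sp w).card) with h8 | h9 | h10
      · exact hT1 (Fin n) d w hd7 (by omega) hw h8
      · exact hT2 (Fin n) d w hd7 (by omega) hw h9
      · exact vac (by omega)
  by_cases hk2 : k ≤ 2
  · exact Conn_le_two hk2 w
  · rcases (by omega : k = 3 ∨ k = 4 ∨ 5 ≤ k) with rfl | rfl | hk5
    · exact h3 w hw
    · rcases Nat.lt_or_ge (sp w).card 10 with h | h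
      · exact hlow 4 w hw (by omega)
      · rcases (by omega : (sp w).card = 10 ∨ (sp w).card = 11) with h10 | h11
        · exact hT4 (Fin n) d w hd7 (by omega) hw h10 h3
        · exact hT5 (Fin n) d w hd7 (by omega) hw h11 h3
    · exact hlow k w hw (by omega)

end Pool.Agent.Helper42.PQ.T6
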