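import Pool.Agent.Helper42.PQ.All
import Pool.Agent.Helper42.PQ.T6
import Pool.Graph.R_seed8.Helper857.PVb

set_option autoImplicit false

/-!
The complete classification of the quadratic pinched Veronese algebras.
-/

namespace Pool.Agent.Helper42.PQ.Classification

open Pool.Agent.Helper42.PQ Pool.Agent.Helper857.PV

theorem main (h9 : S_M9) (h6 : S_T6) (K : Type) [Field K] (n d s : ℕ) (hd : 1 ≤ d)
    (hs : 1 ≤ s) :
    IsQuadratic K n d s ↔
      (s = 1 ∨ n ≤ s ∨ d ≤ s ∨ (s = 2 ∧ (n = 3 ∨ d ≤ 4)) ∨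
       (s = 3 ∧ (n ≤ 7 ∨ d ≤ 6 ∨ (n ≤ 11 ∧ d ≤ 8) ∨ (n = 8 ∧ d = 9))) ∨
       (4 ≤ s ∧ (n + 2 ≤ 3 * s ∨ (d ≤ 2 * s ∧ (n + 1 ≤ 3 * s ∨ d ≤ s + 9 ∨
          (d = s + 10 ∧ n + 4 ≤ 6 * s) ∨ (d = s + 11 ∧ n + 2 ≤ 4 * s)))))) := by
  have hspec : ∀ n d : ℕ, ((7 ≤ d ∧ d ≤ 8 ∧ n ≤ 11) ∨ (d = 9 ∧ n = 8)) →
      IsQuadratic K n d 3 := fun n d h =>
    BR.main K n d 3 (by omega) (fun k w hw => h6 n d k w hw h)
  rcases (by omega : s = 1 ∨ s = 2 ∨ s = 3 ∨ 4 ≤ s) with rfl | rfl | rfl | h4
  · exact ⟨fun _ => Or.inl rfl, fun _ => Final.one BR.main K n d hd⟩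
  · by_cases h0 : n ≤ 2 ∨ d ≤ 2
    · constructor
      · intro _
        rcases h0 with h | h
        · exact Or.inr (Or.inl h)
        · exact Or.inr (Or.inr (Or.inl h))
      · intro _
        exact Final.veronese K n d 2 hd h0
    · have h1 : IsQuadratic K n d 2 ↔ (n = 3 ∨ d ≤ 4) := by
        constructor
        · intro h
          by_contra hcon
          push Not at hcon
          exact two_not K n d (by omega) (by omega) h
        · rintro (rfl | h4)
          · exact full_quad K 2 d (by omega) (by omega)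
          · have : d = 3 ∨ d = 4 := by omega
            rcases this with rfl | rfl
            · exact cubic_quad K n
            · exact quartic_quad K n
      rw [h1]
      constructor
      · intro h
        exact Or.inr (Or.inr (Or.inr (Or.inl ⟨rfl, h⟩)))
      · intro h
        omega
  · rw [Final.three BR.main (All.sPOS h9) K n d hd (hspec 11 7 (by omega))
      (hspec 11 8 (by omega)) (hspec 8 9 (by omega))]
    omega
  · rw [Final.big BR.main (All.sPOS h9) All.sN11 All.sN10 K n d s h4 hd]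
    omega

end Pool.Agent.Helper42.PQ.Classification
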