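import Mathlib
import Pool.Agent.Helper46.PV.C

set_option autoImplicit false

/-!
Definitions for the classification of the quadratic pinched Veronese algebras (swarm PQ).
-/

namespace Pool.Agent.Helper42.PQ

open Finset

export Pool.Agent.Helper46.PV (sg Bn)

variable {ι : Type} [Fintype ι] [DecidableEq ι]

/-- generators: exponent vectors of degree `d` with at most `s` nonzero entries
(`G (Fin n) d s` is the type `Gen n d s` of the library) -/
abbrev G (ι : Type) [Fintype ι] (d s : ℕ) : Type :=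
  {a : ι → ℕ // ∑ i, a i = d ∧ (Finset.univ.filter (fun i => a i ≠ 0)).card ≤ s}

/-- total exponent vector of a multiset of generators -/
def Wt {d s : ℕ} (S : Multiset (G ι d s)) : ι → ℕ := (S.map (fun m => m.1)).sum

/-- support of an exponent vector -/
def sp (w : ι → ℕ) : Finset ι := Finset.univ.filter (fun i => w i ≠ 0)

/-- elementary (quadratic) move -/
inductive Mv {d s : ℕ} : Multiset (G ι d s) → Multiset (G ι d s) → Prop
  | mk (u v u' v' : G ι d s) (A : Multiset (G ι d s)) (h : u.1 + v.1 = u'.1 + v'.1) :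
      Mv (u ::ₘ v ::ₘ A) (u' ::ₘ v' ::ₘ A)

/-- connected by quadratic moves -/
def Cn {d s : ℕ} (S T : Multiset (G ι d s)) : Prop := Relation.EqvGen Mv S T

/-- the fibre of degree `k` and weight `w` is connected -/
def Conn (ι : Type) [Fintype ι] (d s k : ℕ) (w : ι → ℕ) : Prop :=
  ∀ S T : Multiset (G ι d s), S.card = k → T.card = k → Wt S = w → Wt T = w → Cn S T

/-- the fibre of degree `k` and weight `w` is nonempty -/
def Fac (ι : Type) [Fintype ι] (d s k : ℕ) (w : ι → ℕ) : Prop :=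
  ∃ S : Multiset (G ι d s), S.card = k ∧ Wt S = w

/-! ### basic nodes (`Bn u r d P x`: `P.card = r ∧ x ∉ P ∧ sg u P ≤ d ∧ d ≤ sg u P + u x`,
`sg u P = ∑ i ∈ P, u i`) -/

/-- basic node inside `D` -/
def Nd (u : ι → ℕ) (r d : ℕ) (D : Finset ι) (p : Finset ι × ι) : Prop :=
  p.1 ⊆ D ∧ p.2 ∈ D ∧ Bn u r d p.1 p.2

/-- adjacency of basic nodes inside `D` -/
def NAd (u : ι → ℕ) (r d : ℕ) (D : Finset ι) (p q : Finset ι × ι) : Prop :=
  Nd u r d D p ∧ Nd u r d D q ∧ Disjoint p.1 q.1 ∧ p.2 ∉ q.1 ∧ q.2 ∉ p.1 ∧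
    (p.2 = q.2 → 2 * d ≤ sg u p.1 + sg u q.1 + u p.2)

/-- connectedness of basic nodes inside `D` -/
def NCn (u : ι → ℕ) (r d : ℕ) (D : Finset ι) (p q : Finset ι × ι) : Prop :=
  Relation.EqvGen (NAd u r d D) p q

/-- the exponent vector of a basic node: `P` completely, `d - sg u P` letters of `x` -/
def bvec (u : ι → ℕ) (d : ℕ) (p : Finset ι × ι) : ι → ℕ :=
  fun i => if i ∈ p.1 then u i else if i = p.2 then d - sg u p.1 else 0

/-! ### groupings -/

/-- `T` is a grouping of a configuration of weight `w` along `ρ` -/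
def Grp {d r q : ℕ} (w : ι → ℕ) (ρ : ι → Fin q) (T : Fin q → Multiset (G ι d (r + 1))) : Prop :=
  ∀ j, (Wt (T j) = fun i => if ρ i = j then w i else 0) ∧
    (sp (Wt (T j))).card = (T j).card * r + 1

/-- the configuration `S` can be grouped along `ρ` -/
def Cf {d r q : ℕ} (w : ι → ℕ) (ρ : ι → Fin q) (S : Multiset (G ι d (r + 1))) : Prop :=
  ∃ T : Fin q → Multiset (G ι d (r + 1)), Grp w ρ T ∧ S = ∑ j, T j

/-- the class `j` of `ρ` inside the support of `w` -/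
def cls {q : ℕ} (w : ι → ℕ) (ρ : ι → Fin q) (j : Fin q) : Finset ι :=
  (sp w).filter (fun i => ρ i = j)

/-- the numerical condition for the existence of a configuration grouped along `ρ` -/
def NG {q : ℕ} (w : ι → ℕ) (r d : ℕ) (ρ : ι → Fin q) : Prop :=
  ∀ j, ∃ t, 1 ≤ t ∧ (cls w ρ j).card = t * r + 1 ∧ sg w (cls w ρ j) = t * d

/-- `ρ'` differs from `ρ` only by re-dividing the classes `a`, `b` (inside `A`) -/
def TwoOn {α β : Type} (A : Set α) (a b : β) (ρ ρ' : α → β) : Prop :=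
  ∀ v ∈ A, (ρ v ≠ a → ρ v ≠ b → ρ' v = ρ v) ∧ ((ρ v = a ∨ ρ v = b) → (ρ' v = a ∨ ρ' v = b))

/-! ### divisions of a family of residues into classes of sum `-1` modulo `N` -/

section
variable {α β : Type} [Fintype α] [DecidableEq β]

/-- every class of `ρ` has sum `-1` modulo `N` -/
def IsDv (N : ℕ) (x : α → ℕ) (ρ : α → β) : Prop :=
  ∀ j, N ∣ (∑ v ∈ Finset.univ.filter (fun v => ρ v = j), x v) + 1

/-- one step: re-division of two classes -/
def DStep (N : ℕ) (x : α → ℕ) (ρ ρ' : α → β) : Prop :=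
  IsDv N x ρ ∧ IsDv N x ρ' ∧ ∃ a b, TwoOn Set.univ a b ρ ρ'

/-- connectedness of divisions -/
def DCn (N : ℕ) (x : α → ℕ) (ρ κ : α → β) : Prop := Relation.EqvGen (DStep N x) ρ κ

/-- a pair of divisions which are not connected -/
def BadP (N : ℕ) (x : α → ℕ) (ρ κ : α → β) : Prop :=
  IsDv N x ρ ∧ IsDv N x κ ∧ ¬ DCn N x ρ κ

/-- sum over a set of items -/
def sx (x : α → ℕ) (S : Finset α) : ℕ := ∑ v ∈ S, x v

/-- the type of a class: the multiset of residues -/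
def ty (N : ℕ) (x : α → ℕ) (ρ : α → β) (a : β) : Multiset ℕ :=
  (Finset.univ.filter (fun v => ρ v = a)).val.map (fun v => x v % N)

end

/-- the pairs (modulus, bound for the degree) for which all divisions are connected -/
def GoodNK (N K : ℕ) : Prop := (2 ≤ N ∧ N ≤ 10) ∨ (N = 11 ∧ K ≤ 5) ∨ (N = 12 ∧ K ≤ 3)

/-- induction hypothesis for divisions: fewer than `n` items -/
def MIH (N K n : ℕ) : Prop :=
  ∀ (α β : Type) [Fintype α] [DecidableEq α] [Fintype β] [DecidableEq β]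
    (x : α → ℕ) (ρ κ : α → β), Fintype.card α < n → IsDv N x ρ → IsDv N x κ →
    (∑ v, x v) + Fintype.card β ≤ N * K → DCn N x ρ κ

/-- valid types: residues `1..N-1`, no zero-sum part, total `-1`, at least three elements -/
def ValT (N : ℕ) (τ : Multiset ℕ) : Prop :=
  (∀ a ∈ τ, 1 ≤ a ∧ a < N) ∧ (∀ σ ≤ τ, σ ≠ 0 → ¬ N ∣ σ.sum) ∧ N ∣ τ.sum + 1 ∧ 3 ≤ τ.card

/-- compatibility of two marked types `(a, τ)`, `(b, τ')` -/
def cmpt (N : ℕ) (a : ℕ) (τ : Multiset ℕ) (b : ℕ) (τ' : Multiset ℕ) : Prop :=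
  ∀ σ ≤ τ.erase a, ∀ σ' ≤ τ'.erase b,
    ¬ (a + σ.sum ≡ σ'.sum [MOD N]) ∧ ¬ (σ.sum ≡ b + σ'.sum [MOD N])

/-- closed families of sets of cells `(a, row type, column type)`; `B` bounds the sum of the
residues of two different rows (columns) meeting in a common column (row) -/
def ClosedFam (N B : ℕ) (F : Set (Set (ℕ × Multiset ℕ × Multiset ℕ))) : Prop :=
  ∀ C ∈ F, ∀ a τ γ, (a, τ, γ) ∈ C →
    (a ∈ τ ∧ a ∈ γ ∧ ValT N τ ∧ ValT N γ) ∧
    (∀ b ∈ γ.erase a, ∃ τ', (b, τ', γ) ∈ C ∧ cmpt N a τ b τ' ∧ τ.sum + τ'.sum ≤ B) ∧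
    (∀ b ∈ τ.erase a, ∃ γ', (b, τ, γ') ∈ C ∧ cmpt N a γ b γ' ∧ γ.sum + γ'.sum ≤ B) ∧
    (∀ τ' γ', (a, τ', γ') ∈ C → τ ≠ τ' → γ ≠ γ' → ∃ C' ∈ F, (a, τ, γ') ∈ C')

end Pool.Agent.Helper42.PQ
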