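import Pool.Agent.Helper42.PQ.Spec
import Pool.Agent.Helper42.PQ.Base

set_option autoImplicit false

namespace Pool.Agent.Helper42.PQ.E33

open Finset Pool.Agent.Helper42.PQ

/-- subset sums of a row -/
def sub (x y z : ℕ) (s : ℕ) : ℕ :=
  (if s.testBit 0 then x else 0) + (if s.testBit 1 then y else 0) + (if s.testBit 2 then z else 0)

def sums (N x y z : ℕ) : List ℕ :=
  [0, x % N, y % N, (x + y) % N, z % N, (x + z) % N, (y + z) % N, (x + y + z) % N]

/-- two lists have equal entries at different positions -/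
def hitl (l l' : List ℕ) : Bool :=
  match l, l' with
  | [a0, a1, a2, a3, a4, a5, a6, a7], [b0, b1, b2, b3, b4, b5, b6, b7] =>
    (a1 == b2) || (a1 == b4) || (a2 == b1) || (a2 == b4) || (a4 == b1) || (a4 == b2) ||
    (a3 == b1) || (a3 == b2) || (a3 == b4) || (a3 == b5) || (a3 == b6) ||
    (a5 == b1) || (a5 == b2) || (a5 == b4) || (a5 == b3) || (a5 == b6) ||
    (a6 == b1) || (a6 == b2) || (a6 == b4) || (a6 == b3) || (a6 == b5) ||
    (a1 == b3) || (a1 == b5) || (a1 == b6) || (a2 == b3) || (a2 == b5) || (a2 == b6) ||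
    (a4 == b3) || (a4 == b5) || (a4 == b6) || 
    (a0 == b1) || (a0 == b2) || (a0 == b3) || (a0 == b4) || (a0 == b5) || (a0 == b6) ||
    (a1 == b0) || (a2 == b0) || (a3 == b0) || (a4 == b0) || (a5 == b0) || (a6 == b0) ||
    (a7 == b1) || (a7 == b2) || (a7 == b3) || (a7 == b4) || (a7 == b5) || (a7 == b6) ||
    (a1 == b7) || (a2 == b7) || (a3 == b7) || (a4 == b7) || (a5 == b7) || (a6 == b7)
  | _, _ => false


/-- the subset with a given index -/
def st : ℕ → Finset (Fin 3)
  | 1 => {0}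
  | 2 => {1}
  | 3 => {0, 1}
  | 4 => {2}
  | 5 => {0, 2}
  | 6 => {1, 2}
  | 7 => {0, 1, 2}
  | _ => ∅

lemma st_sum (x y z : ℕ) :
    ∑ j ∈ st 0, ![x, y, z] j = 0 ∧ ∑ j ∈ st 1, ![x, y, z] j = x ∧
    ∑ j ∈ st 2, ![x, y, z] j = y ∧ ∑ j ∈ st 3, ![x, y, z] j = x + y ∧
    ∑ j ∈ st 4, ![x, y, z] j = z ∧ ∑ j ∈ st 5, ![x, y, z] j = x + z ∧
    ∑ j ∈ st 6, ![x, y, z] j = y + z ∧ ∑ j ∈ st 7, ![x, y, z] j = x + y + z := by
  refine ⟨?_, ?_, ?_, ?_, ?_, ?_, ?_, ?_⟩ <;> simp [st] <;> ring

lemma hit_spec {N x y z x' y' z' : ℕ} (h : hitl (sums N x y z) (sums N x' y' z') = true) :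
    ∃ S T : Finset (Fin 3), S ≠ T ∧
      (∑ j ∈ S, ![x, y, z] j) ≡ (∑ j ∈ T, ![x', y', z'] j) [MOD N] := by
  obtain ⟨p0, p1, p2, p3, p4, p5, p6, p7⟩ := st_sum x y z
  obtain ⟨q0, q1, q2, q3, q4, q5, q6, q7⟩ := st_sum x' y' z'
  unfold Nat.ModEq
  simp only [hitl, sums, Bool.or_eq_true, beq_iff_eq] at h
  rcases h with ((((((((((((((((((((((((((((((((((((((((((((((((((((h | h) | h) | h) | h) | h) | h) | h) | h) | h) | h) | h) | h) | h) | h) | h) | h) | h) | h) | h) | h) | h) | h) | h) | h) | h) | h) | h) | h) | h) | h) | h) | h) | h) | h) | h) | h) | h) | h) | h) | h) | h) | h) | h) | h) | h) | h) | h) | h) | h) | h) | h) | h) | h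
  · exact ⟨st 1, st 2, by decide, by rw [p1, q2]; first | exact h | (rw [Nat.zero_mod]; exact h)⟩
  · exact ⟨st 1, st 4, by decide, by rw [p1, q4]; first | exact h | (rw [Nat.zero_mod]; exact h)⟩
  · exact ⟨st 2, st 1, by decide, by rw [p2, q1]; first | exact h | (rw [Nat.zero_mod]; exact h)⟩
  · exact ⟨st 2, st 4, by decide, by rw [p2, q4]; first | exact h | (rw [Nat.zero_mod]; exact h)⟩
  · exact ⟨st 4, st 1, by decide, by rw [p4, q1]; first | exact h | (rw [Nat.zero_mod]; exact h)⟩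
  · exact ⟨st 4, st 2, by decide, by rw [p4, q2]; first | exact h | (rw [Nat.zero_mod]; exact h)⟩
  · exact ⟨st 3, st 1, by decide, by rw [p3, q1]; first | exact h | (rw [Nat.zero_mod]; exact h)⟩
  · exact ⟨st 3, st 2, by decide, by rw [p3, q2]; first | exact h | (rw [Nat.zero_mod]; exact h)⟩
  · exact ⟨st 3, st 4, by decide, by rw [p3, q4]; first | exact h | (rw [Nat.zero_mod]; exact h)⟩
  · exact ⟨st 3, st 5, by decide, by rw [p3, q5]; first | exact h | (rw [Nat.zero_mod]; exact h)⟩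
  · exact ⟨st 3, st 6, by decide, by rw [p3, q6]; first | exact h | (rw [Nat.zero_mod]; exact h)⟩
  · exact ⟨st 5, st 1, by decide, by rw [p5, q1]; first | exact h | (rw [Nat.zero_mod]; exact h)⟩
  · exact ⟨st 5, st 2, by decide, by rw [p5, q2]; first | exact h | (rw [Nat.zero_mod]; exact h)⟩
  · exact ⟨st 5, st 4, by decide, by rw [p5, q4]; first | exact h | (rw [Nat.zero_mod]; exact h)⟩
  · exact ⟨st 5, st 3, by decide, by rw [p5, q3]; first | exact h | (rw [Nat.zero_mod]; exact h)⟩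
  · exact ⟨st 5, st 6, by decide, by rw [p5, q6]; first | exact h | (rw [Nat.zero_mod]; exact h)⟩
  · exact ⟨st 6, st 1, by decide, by rw [p6, q1]; first | exact h | (rw [Nat.zero_mod]; exact h)⟩
  · exact ⟨st 6, st 2, by decide, by rw [p6, q2]; first | exact h | (rw [Nat.zero_mod]; exact h)⟩
  · exact ⟨st 6, st 4, by decide, by rw [p6, q4]; first | exact h | (rw [Nat.zero_mod]; exact h)⟩
  · exact ⟨st 6, st 3, by decide, by rw [p6, q3]; first | exact h | (rw [Nat.zero_mod]; exact h)⟩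
  · exact ⟨st 6, st 5, by decide, by rw [p6, q5]; first | exact h | (rw [Nat.zero_mod]; exact h)⟩
  · exact ⟨st 1, st 3, by decide, by rw [p1, q3]; first | exact h | (rw [Nat.zero_mod]; exact h)⟩
  · exact ⟨st 1, st 5, by decide, by rw [p1, q5]; first | exact h | (rw [Nat.zero_mod]; exact h)⟩
  · exact ⟨st 1, st 6, by decide, by rw [p1, q6]; first | exact h | (rw [Nat.zero_mod]; exact h)⟩
  · exact ⟨st 2, st 3, by decide, by rw [p2, q3]; first | exact h | (rw [Nat.zero_mod]; exact h)⟩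
  · exact ⟨st 2, st 5, by decide, by rw [p2, q5]; first | exact h | (rw [Nat.zero_mod]; exact h)⟩
  · exact ⟨st 2, st 6, by decide, by rw [p2, q6]; first | exact h | (rw [Nat.zero_mod]; exact h)⟩
  · exact ⟨st 4, st 3, by decide, by rw [p4, q3]; first | exact h | (rw [Nat.zero_mod]; exact h)⟩
  · exact ⟨st 4, st 5, by decide, by rw [p4, q5]; first | exact h | (rw [Nat.zero_mod]; exact h)⟩
  · exact ⟨st 4, st 6, by decide, by rw [p4, q6]; first | exact h | (rw [Nat.zero_mod]; exact h)⟩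
  · exact ⟨st 0, st 1, by decide, by rw [p0, q1]; first | exact h | (rw [Nat.zero_mod]; exact h)⟩
  · exact ⟨st 0, st 2, by decide, by rw [p0, q2]; first | exact h | (rw [Nat.zero_mod]; exact h)⟩
  · exact ⟨st 0, st 3, by decide, by rw [p0, q3]; first | exact h | (rw [Nat.zero_mod]; exact h)⟩
  · exact ⟨st 0, st 4, by decide, by rw [p0, q4]; first | exact h | (rw [Nat.zero_mod]; exact h)⟩
  · exact ⟨st 0, st 5, by decide, by rw [p0, q5]; first | exact h | (rw [Nat.zero_mod]; exact h)⟩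
  · exact ⟨st 0, st 6, by decide, by rw [p0, q6]; first | exact h | (rw [Nat.zero_mod]; exact h)⟩
  · exact ⟨st 1, st 0, by decide, by rw [p1, q0]; first | exact h | (rw [Nat.zero_mod]; exact h)⟩
  · exact ⟨st 2, st 0, by decide, by rw [p2, q0]; first | exact h | (rw [Nat.zero_mod]; exact h)⟩
  · exact ⟨st 3, st 0, by decide, by rw [p3, q0]; first | exact h | (rw [Nat.zero_mod]; exact h)⟩
  · exact ⟨st 4, st 0, by decide, by rw [p4, q0]; first | exact h | (rw [Nat.zero_mod]; exact h)⟩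
  · exact ⟨st 5, st 0, by decide, by rw [p5, q0]; first | exact h | (rw [Nat.zero_mod]; exact h)⟩
  · exact ⟨st 6, st 0, by decide, by rw [p6, q0]; first | exact h | (rw [Nat.zero_mod]; exact h)⟩
  · exact ⟨st 7, st 1, by decide, by rw [p7, q1]; first | exact h | (rw [Nat.zero_mod]; exact h)⟩
  · exact ⟨st 7, st 2, by decide, by rw [p7, q2]; first | exact h | (rw [Nat.zero_mod]; exact h)⟩
  · exact ⟨st 7, st 3, by decide, by rw [p7, q3]; first | exact h | (rw [Nat.zero_mod]; exact h)⟩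
  · exact ⟨st 7, st 4, by decide, by rw [p7, q4]; first | exact h | (rw [Nat.zero_mod]; exact h)⟩
  · exact ⟨st 7, st 5, by decide, by rw [p7, q5]; first | exact h | (rw [Nat.zero_mod]; exact h)⟩
  · exact ⟨st 7, st 6, by decide, by rw [p7, q6]; first | exact h | (rw [Nat.zero_mod]; exact h)⟩
  · exact ⟨st 1, st 7, by decide, by rw [p1, q7]; first | exact h | (rw [Nat.zero_mod]; exact h)⟩
  · exact ⟨st 2, st 7, by decide, by rw [p2, q7]; first | exact h | (rw [Nat.zero_mod]; exact h)⟩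
  · exact ⟨st 3, st 7, by decide, by rw [p3, q7]; first | exact h | (rw [Nat.zero_mod]; exact h)⟩
  · exact ⟨st 4, st 7, by decide, by rw [p4, q7]; first | exact h | (rw [Nat.zero_mod]; exact h)⟩
  · exact ⟨st 5, st 7, by decide, by rw [p5, q7]; first | exact h | (rw [Nat.zero_mod]; exact h)⟩
  · exact ⟨st 6, st 7, by decide, by rw [p6, q7]; first | exact h | (rw [Nat.zero_mod]; exact h)⟩

def third (N x y : ℕ) : ℕ := (2 * N - 1 - x - y) % N

def chk (N K a b c d : ℕ) : Bool :=
  let e := third N a b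
  let f := third N c d
  let g := third N a c
  let h := third N b d
  let i := third N g h
  if a == 0 || b == 0 || c == 0 || d == 0 || e == 0 || f == 0 || g == 0 || h == 0 || i == 0 then true
  else if N * K < a + b + e + c + d + f + g + h + i + 3 then true
  else
    let r0 := sums N a b e
    let r1 := sums N c d f
    let r2 := sums N g h i
    if hitl r0 r1 || hitl r0 r2 || hitl r1 r2 then true
    else
      let c0 := sums N a c g
      let c1 := sums N b d h
      let c2 := sums N e f i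
      hitl c0 c1 || hitl c0 c2 || hitl c1 c2

def loop (N K : ℕ) : Bool :=
  (List.range N).all fun a => (List.range N).all fun b => (List.range N).all fun c =>
    (List.range N).all fun d => chk N K a b c d

lemma loop11 : loop 11 5 = true := by decide +kernel
lemma loop12 : loop 12 3 = true := by decide +kernel


lemma third_eq {N x y z : ℕ} (hN : 11 ≤ N) (hx : x < N) (hy : y < N) (hz : z < N)
    (h : N ∣ x + y + z + 1) : third N x y = z := by
  unfold third
  obtain ⟨t, ht⟩ := h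
  have h1 : t = 1 ∨ t = 2 := by
    rcases Nat.lt_or_ge t 1 with h0 | h0
    · have : t = 0 := by omega
      subst this; omega
    · rcases Nat.lt_or_ge t 3 with h3 | h3
      · omega
      · have : N * 3 ≤ N * t := Nat.mul_le_mul_left _ h3
        omega
  rcases h1 with rfl | rfl
  · have : 2 * N - 1 - x - y = z + N := by omega
    rw [this, Nat.add_mod_right, Nat.mod_eq_of_lt hz]
  · have : 2 * N - 1 - x - y = z := by omega
    rw [this, Nat.mod_eq_of_lt hz]

lemma loop_spec {N K : ℕ} (h : loop N K = true) {a b c d : ℕ} (ha : a < N) (hb : b < N)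
    (hc : c < N) (hd : d < N) : chk N K a b c d = true := by
  unfold loop at h
  simp only [List.all_eq_true, List.mem_range] at h
  exact h a ha b hb c hc d hd

theorem main : S_E33 := by
  intro N K hNK M hM hrow hcol htot
  have hN : 11 ≤ N := by omega
  have hl : loop N K = true := by
    rcases hNK with ⟨rfl, rfl⟩ | ⟨rfl, rfl⟩
    · exact loop11
    · exact loop12
  have hc := loop_spec hl (hM 0 0).2 (hM 0 1).2 (hM 1 0).2 (hM 1 1).2
  have r0 := hrow 0
  have r1 := hrow 1
  have r2 := hrow 2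
  have c0 := hcol 0
  have c1 := hcol 1
  have c2 := hcol 2
  rw [Fin.sum_univ_three] at r0 r1 r2 c0 c1 c2
  simp only [Fin.sum_univ_three] at htot
  have e0 := third_eq hN (hM 0 0).2 (hM 0 1).2 (hM 0 2).2 r0
  have e1 := third_eq hN (hM 1 0).2 (hM 1 1).2 (hM 1 2).2 r1
  have e2 := third_eq hN (hM 0 0).2 (hM 1 0).2 (hM 2 0).2 c0
  have e3 := third_eq hN (hM 0 1).2 (hM 1 1).2 (hM 2 1).2 c1
  have e4 := third_eq hN (hM 2 0).2 (hM 2 1).2 (hM 2 2).2 r2
  unfold chk at hc
  simp only [e0, e1, e2, e3, e4] at hc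
  have p00 := (hM 0 0).1
  have p01 := (hM 0 1).1
  have p02 := (hM 0 2).1
  have p10 := (hM 1 0).1
  have p11 := (hM 1 1).1
  have p12 := (hM 1 2).1
  have p20 := (hM 2 0).1
  have p21 := (hM 2 1).1
  have p22 := (hM 2 2).1
  rw [if_neg (by simp; omega), if_neg (by omega)] at hc
  have fr : ∀ i, (![M i 0, M i 1, M i 2] : Fin 3 → ℕ) = M i := by
    intro i; funext j; fin_cases j <;> rfl
  have fc : ∀ j, (![M 0 j, M 1 j, M 2 j] : Fin 3 → ℕ) = fun i => M i j := by
    intro j; funext i; fin_cases i <;> rfl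
  have goalr : ∀ i i', i ≠ i' → hitl (sums N (M i 0) (M i 1) (M i 2))
      (sums N (M i' 0) (M i' 1) (M i' 2)) = true →
      (∃ i i', i ≠ i' ∧ ∃ S T : Finset (Fin 3), S ≠ T ∧
        (∑ j ∈ S, M i j) ≡ (∑ j ∈ T, M i' j) [MOD N]) := by
    intro i i' hne h
    obtain ⟨S, T, hST, he⟩ := hit_spec h
    rw [fr, fr] at he
    exact ⟨i, i', hne, S, T, hST, he⟩
  have goalc : ∀ j j', j ≠ j' → hitl (sums N (M 0 j) (M 1 j) (M 2 j))
      (sums N (M 0 j') (M 1 j') (M 2 j')) = true →
      (∃ j j', j ≠ j' ∧ ∃ S T : Finset (Fin 3), S ≠ T ∧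
        (∑ i ∈ S, M i j) ≡ (∑ i ∈ T, M i j') [MOD N]) := by
    intro j j' hne h
    obtain ⟨S, T, hST, he⟩ := hit_spec h
    rw [fc, fc] at he
    exact ⟨j, j', hne, S, T, hST, he⟩
  split_ifs at hc with h
  · simp only [Bool.or_eq_true] at h
    left
    rcases h with (h | h) | h
    · exact goalr 0 1 (by decide) h
    · exact goalr 0 2 (by decide) h
    · exact goalr 1 2 (by decide) h
  · simp only [Bool.or_eq_true] at hc
    right
    rcases hc with (h | h) | h
    · exact goalc 0 1 (by decide) h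
    · exact goalc 0 2 (by decide) h
    · exact goalc 1 2 (by decide) h

end Pool.Agent.Helper42.PQ.E33
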