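import Pool.Agent.Helper42.PQ.Spec2
import Pool.Agent.Helper42.PQ.Base
import Pool.Graph.R_seed8.Helper857.PVi
import Pool.Graph.R_seed8.Helper857.PVk
import Pool.Graph.R_seed8.Helper857.PVm
import Pool.Graph.R_seed8.Helper857.PVo

set_option autoImplicit false

/-!
Final assembly of the classification of the quadratic pinched Veronese algebras.
-/

namespace Pool.Agent.Helper42.PQ.Final

open Finset Pool.Agent.Helper42.PQ Pool.Agent.Helper857.PV

/-- quadraticity for the algebra generated by the monomials with a given property -/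
def Qd (K : Type) [Field K] (n : ℕ) (p : (Fin n → ℕ) → Prop) : Prop :=
  RingHom.ker (MvPolynomial.aeval (fun m : {a : Fin n → ℕ // p a} => mon K n m.1) :
      MvPolynomial {a : Fin n → ℕ // p a} K →ₐ[K] MvPolynomial (Fin n) K) =
    Ideal.span {f | f ∈ RingHom.ker (MvPolynomial.aeval (fun m : {a : Fin n → ℕ // p a} =>
      mon K n m.1) : MvPolynomial {a : Fin n → ℕ // p a} K →ₐ[K] MvPolynomial (Fin n) K) ∧
      f.IsHomogeneous 2}

lemma isq_eq (K : Type) [Field K] (n d s : ℕ) : IsQuadratic K n d s =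
    Qd K n (fun a => ∑ i, a i = d ∧ (Finset.univ.filter (fun i => a i ≠ 0)).card ≤ s) := rfl

/-- the ordinary Veronese algebras -/
lemma veronese (K : Type) [Field K] (n d s : ℕ) (hd : 1 ≤ d) (h : n ≤ s ∨ d ≤ s) :
    IsQuadratic K n d s := by
  have h1 : IsQuadratic K (max n 2 + 1) d (max n 2) := full_quad K (max n 2) d (by omega) hd
  have h2 : IsQuadratic K n d (max n 2) := Pool.Agent.Helper46.PV.quad_mono K (by omega) h1
  rw [isq_eq] at h2 ⊢
  have e : (fun a : Fin n → ℕ => ∑ i, a i = d ∧ (Finset.univ.filter (fun i => a i ≠ 0)).card ≤ s)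
      = (fun a : Fin n → ℕ => ∑ i, a i = d ∧
        (Finset.univ.filter (fun i => a i ≠ 0)).card ≤ max n 2) := by
    funext a
    apply propext
    have hn : (Finset.univ.filter (fun i => a i ≠ 0)).card ≤ n := by
      refine le_trans (Finset.card_le_univ _) ?_
      rw [Fintype.card_fin]
    constructor
    · rintro ⟨e1, e2⟩
      exact ⟨e1, by omega⟩
    · rintro ⟨e1, e2⟩
      refine ⟨e1, ?_⟩
      rcases h with h | h
      · omega
      · refine le_trans ?_ h
        rw [← e1, Finset.card_eq_sum_ones, Finset.sum_filter]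
        apply Finset.sum_le_sum
        intro i _
        split_ifs <;> omega
  rw [e]
  exact h2

/-- `s = 1`: a polynomial ring -/
lemma one (hBR : S_BR) (K : Type) [Field K] (n d : ℕ) (hd : 1 ≤ d) : IsQuadratic K n d 1 := by
  apply hBR K n d 1 hd
  intro k w hw S T hS hT hSw hTw
  apply Cn.of_eq
  -- a generator is `d` times a unit vector
  have hgen : ∀ g : G (Fin n) d 1, ∀ i, g.1 i ≠ 0 → g.1 i = d ∧ ∀ j, j ≠ i → g.1 j = 0 := by
    intro g i hi
    have h0 : ∀ j, j ≠ i → g.1 j = 0 := by
      intro j hj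
      by_contra hc
      have h1 : ({i, j} : Finset (Fin n)) ⊆ Finset.univ.filter (fun i => g.1 i ≠ 0) := by
        intro t ht
        rw [Finset.mem_insert, Finset.mem_singleton] at ht
        rw [Finset.mem_filter]
        rcases ht with rfl | rfl
        · exact ⟨Finset.mem_univ _, hi⟩
        · exact ⟨Finset.mem_univ _, hc⟩
      have h2 := Finset.card_le_card h1
      rw [Finset.card_pair hj.symm] at h2
      have h3 := g.2.2
      omega
    refine ⟨?_, h0⟩
    have h1 := g.2.1
    rw [Finset.sum_eq_single i (fun j _ hj => h0 j hj) (fun h => absurd (Finset.mem_univ _) h)] at h1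
    exact h1
  have hex : ∀ g : G (Fin n) d 1, ∃ i, g.1 i ≠ 0 := by
    intro g
    by_contra hc
    push Not at hc
    have h1 := g.2.1
    rw [Finset.sum_eq_zero (fun i _ => hc i)] at h1
    omega
  have hcount : ∀ (S : Multiset (G (Fin n) d 1)) (g : G (Fin n) d 1) (i : Fin n), g.1 i ≠ 0 →
      Wt S i = d * S.count g := by
    intro S g i hi
    induction S using Multiset.induction_on with
    | empty => simp [Wt_zero]
    | cons u S ih =>
      rw [Wt_cons, Multiset.count_cons]
      show u.1 i + Wt S i = _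
      rw [ih]
      by_cases hu : u.1 i = 0
      · have : g ≠ u := by rintro rfl; exact hi hu
        rw [if_neg this, hu]; ring
      · have h1 := hgen u i hu
        have h2 := hgen g i hi
        have : g = u := by
          apply Subtype.ext
          funext j
          by_cases hj : j = i
          · rw [hj, h1.1, h2.1]
          · rw [h1.2 j hj, h2.2 j hj]
        rw [if_pos this, h1.1]; ring
  apply Multiset.ext.mpr
  intro g
  obtain ⟨i, hi⟩ := hex g
  have h1 := hcount S g i hi
  have h2 := hcount T g i hi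
  rw [hSw] at h1
  rw [hTw] at h2
  exact Nat.eq_of_mul_eq_mul_left (by omega) (h1.symm.trans h2)

/-- positive part for `s + 1 ≤ d ≤ 2 s` -/
lemma pos (hBR : S_BR) (hPOS : S_POS) (K : Type) [Field K] (n d s : ℕ) (hs : 3 ≤ s)
    (hd : s + 1 ≤ d) (hd2 : d ≤ 2 * s)
    (h : n + 1 ≤ 3 * s ∨ d ≤ s + 9 ∨ (d = s + 10 ∧ n + 4 ≤ 6 * s) ∨
      (d = s + 11 ∧ n + 2 ≤ 4 * s)) : IsQuadratic K n d s := by
  obtain ⟨r, rfl⟩ : ∃ r, s = r + 1 := ⟨s - 1, by omega⟩
  apply hBR K n d (r + 1) (by omega)
  intro k w hw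
  have hsp : (sp w).card ≤ n := by
    refine le_trans (Finset.card_le_univ _) ?_
    rw [Fintype.card_fin]
  by_cases hk : k ≤ 2
  · exact Conn_le_two hk w
  have h3 : 3 * r ≤ k * r := Nat.mul_le_mul_right _ (by omega)
  rcases h with h | h | ⟨h1, h2⟩ | ⟨h1, h2⟩
  · exact (hPOS (Fin n) d r k (by omega) (by omega) (by omega)).1 k w hw (by omega)
  · exact (hPOS (Fin n) d r k (by omega) (by omega) (by omega)).2 (Or.inl (by omega)) k le_rfl w hw
  · by_cases hk5 : k ≤ 5
    · exact (hPOS (Fin n) d r 5 (by omega) (by omega) (by omega)).2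
        (Or.inr (Or.inl (by omega))) k hk5 w hw
    · have h4 : 6 * r ≤ k * r := Nat.mul_le_mul_right _ (by omega)
      exact (hPOS (Fin n) d r k (by omega) (by omega) (by omega)).1 k w hw (by omega)
  · by_cases hk3 : k ≤ 3
    · exact (hPOS (Fin n) d r 3 (by omega) (by omega) (by omega)).2
        (Or.inr (Or.inr (by omega))) k hk3 w hw
    · have h4 : 4 * r ≤ k * r := Nat.mul_le_mul_right _ (by omega)
      exact (hPOS (Fin n) d r k (by omega) (by omega) (by omega)).1 k w hw (by omega)

/-- the classification for `s ≥ 4` -/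
theorem big (hBR : S_BR) (hPOS : S_POS) (hN11 : S_N11) (hN10 : S_N10) (K : Type) [Field K]
    (n d s : ℕ) (hs : 4 ≤ s) (hd : 1 ≤ d) :
    IsQuadratic K n d s ↔ (n + 2 ≤ 3 * s ∨ (d ≤ 2 * s ∧ (n + 1 ≤ 3 * s ∨ d ≤ s + 9 ∨
      (d = s + 10 ∧ n + 4 ≤ 6 * s) ∨ (d = s + 11 ∧ n + 2 ≤ 4 * s)))) := by
  constructor
  · intro h
    by_contra hc
    rw [not_or, not_and_or] at hc
    obtain ⟨hn, hc⟩ := hc
    rcases hc with hc | hc
    · obtain ⟨r, rfl⟩ : ∃ r, s = r + 1 := ⟨s - 1, by omega⟩
      exact Pool.Agent.Helper46.PV.large_not K r d (by omega) (by omega)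
        (Pool.Agent.Helper46.PV.quad_mono K (by omega) h)
    · by_cases h2 : d ≤ 2 * s
      · rw [not_or, not_or, not_or] at hc
        obtain ⟨hc1, hc2, hc3, hc4⟩ := hc
        by_cases h10 : d = s + 10
        · subst h10
          exact hN10 K s (by omega) (Pool.Agent.Helper46.PV.quad_mono K (by omega) h)
        · by_cases h11 : d = s + 11
          · subst h11
            exact hN11 K s (by omega) (Pool.Agent.Helper46.PV.quad_mono K (by omega) h)
          · exact Pool.Agent.Helper46.PV.wide_not K s d (by omega) (by omega)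
              (Pool.Agent.Helper46.PV.quad_mono K (by omega) h)
      · obtain ⟨r, rfl⟩ : ∃ r, s = r + 1 := ⟨s - 1, by omega⟩
        exact Pool.Agent.Helper46.PV.large_not K r d (by omega) (by omega)
          (Pool.Agent.Helper46.PV.quad_mono K (by omega) h)
  · rintro (h | ⟨h1, h2⟩)
    · exact Pool.Agent.Helper46.PV.quad_small K n d s (by omega) h hd
    · by_cases h3 : s + 1 ≤ d
      · exact pos hBR hPOS K n d s (by omega) h3 h1 h2
      · exact veronese K n d s hd (Or.inr (by omega))

/-- the classification for `s = 3` up to the sporadic triples -/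
theorem three (hBR : S_BR) (hPOS : S_POS) (K : Type) [Field K]
    (n d : ℕ) (hd : 1 ≤ d) (h7 : IsQuadratic K 11 7 3) (h8 : IsQuadratic K 11 8 3)
    (h9 : IsQuadratic K 8 9 3) :
    IsQuadratic K n d 3 ↔ (n ≤ 7 ∨ d ≤ 6 ∨ (n ≤ 11 ∧ d ≤ 8) ∨ (n = 8 ∧ d = 9)) := by
  constructor
  · intro h
    by_contra hc
    rw [not_or, not_or, not_or] at hc
    obtain ⟨hc1, hc2, hc3, hc4⟩ := hc
    by_cases h10 : 10 ≤ d
    · exact Pool.Agent.Helper46.PV.three_not8 K d h10
        (Pool.Agent.Helper46.PV.quad_mono K (by omega) h)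
    · by_cases h9' : d = 9
      · subst h9'
        exact Pool.Agent.Helper46.PV.nine_not K (Pool.Agent.Helper46.PV.quad_mono K (by omega) h)
      · exact Pool.Agent.Helper46.PV.three_not12 K d (by omega)
          (Pool.Agent.Helper46.PV.quad_mono K (by omega) h)
  · rintro (h | h | ⟨h1, h2⟩ | ⟨rfl, rfl⟩)
    · exact Pool.Agent.Helper46.PV.quad_small K n d 3 le_rfl (by omega) hd
    · by_cases h3 : 4 ≤ d
      · exact pos hBR hPOS K n d 3 le_rfl h3 h (Or.inr (Or.inl (by omega)))
      · exact veronese K n d 3 hd (Or.inr (by omega))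
    · by_cases h3 : d ≤ 6
      · by_cases h4 : 4 ≤ d
        · exact pos hBR hPOS K n d 3 le_rfl h4 h3 (Or.inr (Or.inl (by omega)))
        · exact veronese K n d 3 hd (Or.inr (by omega))
      · rcases (by omega : d = 7 ∨ d = 8) with rfl | rfl
        · exact Pool.Agent.Helper46.PV.quad_mono K h1 h7
        · exact Pool.Agent.Helper46.PV.quad_mono K h1 h8
    · exact h9

end Pool.Agent.Helper42.PQ.Final
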