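import Pool.Agent.Helper42.PQ.Spec
import Pool.Agent.Helper42.PQ.Base

set_option autoImplicit false

namespace Pool.Agent.Helper42.PQ.M9

open Finset Pool.Agent.Helper42.PQ

variable {α β : Type} [Fintype α] [DecidableEq α] [Fintype β] [DecidableEq β]

/-- sums modulo `N` of residues -/
lemma mod_sum {γ : Type} (N : ℕ) (A : Finset γ) (f : γ → ℕ) :
    (∑ j ∈ A, f j % N) ≡ (∑ j ∈ A, f j) [MOD N] := by
  unfold Nat.ModEq
  exact (Finset.sum_nat_mod A N f).symm

/-- half of the argument: equal subset sums of two rows of the array -/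
lemma half (h4 : S_M4) {N : ℕ} (hN : 2 ≤ N) {x : α → ℕ} {R : (α → β) → (α → β) → Prop}
    (hO : OrtF N x R) {ρ κ : α → β} (hR : R ρ κ) (e : Fin 3 ≃ β) (V : Fin 3 → Fin 3 → α)
    (hV1 : ∀ i j, ρ (V i j) = e i) (hV2 : ∀ i j, κ (V i j) = e j) {i i' : Fin 3} (hii : i ≠ i')
    {S T : Finset (Fin 3)} (hST : S ≠ T)
    (hsum : (∑ j ∈ S, x (V i j) % N) ≡ (∑ j ∈ T, x (V i' j) % N) [MOD N]) : False := by
  have inj : ∀ i, Function.Injective (V i) := by
    intro i j j' h
    have h1 := hV2 i j
    rw [h, hV2 i j'] at h1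
    exact (e.injective h1).symm
  -- the swap
  have key : ∀ (i i' : Fin 3) (S T : Finset (Fin 3)) (j : Fin 3), i ≠ i' → j ∈ S → j ∉ T →
      (∑ j ∈ S, x (V i j) % N) ≡ (∑ j ∈ T, x (V i' j) % N) [MOD N] → False := by
    intro i i' S T j hii hjS hjT hs
    have hne : e i ≠ e i' := fun h => hii (e.injective h)
    have hR' := h4 N α β x R hN hO ρ κ hR (e i) (e i') hne (S.image (V i)) (T.image (V i'))
      (by
        intro v hv
        rw [Finset.mem_image] at hv
        obtain ⟨j, _, rfl⟩ := hv
        exact hV1 i j)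
      (by
        intro v hv
        rw [Finset.mem_image] at hv
        obtain ⟨j, _, rfl⟩ := hv
        exact hV1 i' j)
      (by
        unfold sx
        rw [Finset.sum_image (fun a _ b _ h => inj i h), Finset.sum_image (fun a _ b _ h => inj i' h)]
        exact ((mod_sum N S (fun j => x (V i j))).symm.trans hs).trans
          (mod_sum N T (fun j => x (V i' j))))
    obtain ⟨_, _, horth, _, _, _⟩ := hO.2.2 _ _ hR'
    have hvw : V i j ≠ V i' j := by
      intro h
      have := hV1 i j
      rw [h, hV1 i' j] at this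
      exact hne this.symm
    refine horth (V i j) (V i' j) hvw ?_ ?_
    · have a1 : V i j ∈ S.image (V i) := Finset.mem_image_of_mem _ hjS
      have a2 : V i' j ∉ S.image (V i) := by
        intro h
        rw [Finset.mem_image] at h
        obtain ⟨j', _, h'⟩ := h
        have := hV1 i j'
        rw [h', hV1 i' j] at this
        exact hne this.symm
      have a3 : V i' j ∉ T.image (V i') := by
        intro h
        rw [Finset.mem_image] at h
        obtain ⟨j', hj', h'⟩ := h
        rw [inj i' h'] at hj'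
        exact hjT hj'
      show (if V i j ∈ S.image (V i) then e i' else if V i j ∈ T.image (V i') then e i
        else ρ (V i j)) = (if V i' j ∈ S.image (V i) then e i' else
          if V i' j ∈ T.image (V i') then e i else ρ (V i' j))
      rw [if_pos a1, if_neg a2, if_neg a3, hV1]
    · rw [hV2, hV2]
  by_cases hsub : ∃ j ∈ S, j ∉ T
  · obtain ⟨j, hj, hj'⟩ := hsub
    exact key i i' S T j hii hj hj' hsum
  · have : ∃ j ∈ T, j ∉ S := by
      by_contra hc
      push Not at hsub hc
      exact hST (Finset.Subset.antisymm hsub hc)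
    obtain ⟨j, hj, hj'⟩ := this
    exact key i' i T S j hii.symm hj hj' hsum.symm

theorem main (h4 : S_M4) (h5 : S_M5) (hE : S_E33) : S_M9 := by
  intro N K hNK α β _ _ _ _ x R hO hβ htot ρ κ hR
  have hN : 2 ≤ N := by omega
  obtain ⟨hdv1, hdv2, horth, _, hsym, _⟩ := hO.2.2 _ _ hR
  have hx0 := hO.1
  obtain ⟨e⟩ : Nonempty (Fin 3 ≃ β) := by
    rw [← Fintype.card_eq, Fintype.card_fin, hβ]
  -- the class `a` of `ρ` meets every class of `κ`
  have hex : ∀ a b, ∃ v, ρ v = a ∧ κ v = b := by
    intro a b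
    have h3 := (h5 N α β x R hN hO ρ κ hR a).2
    have hinj : Set.InjOn κ ((Finset.univ.filter (fun v => ρ v = a) : Finset α) : Set α) := by
      intro v hv w hw h
      rw [Finset.mem_coe, Finset.mem_filter] at hv hw
      by_contra hne
      exact horth v w hne (hv.2.trans hw.2.symm) h
    have himg : (Finset.univ.filter (fun v => ρ v = a)).image κ = Finset.univ := by
      apply Finset.eq_univ_of_card
      apply le_antisymm (Finset.card_le_univ _)
      rw [Finset.card_image_of_injOn hinj, hβ]
      exact h3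
    have hb : b ∈ (Finset.univ.filter (fun v => ρ v = a)).image κ := by
      rw [himg]; exact Finset.mem_univ b
    rw [Finset.mem_image] at hb
    obtain ⟨v, hv, hvb⟩ := hb
    rw [Finset.mem_filter] at hv
    exact ⟨v, hv.2, hvb⟩
  choose W hW1 hW2 using hex
  set V : Fin 3 → Fin 3 → α := fun i j => W (e i) (e j) with hV
  have hV1 : ∀ i j, ρ (V i j) = e i := fun i j => hW1 _ _
  have hV2 : ∀ i j, κ (V i j) = e j := fun i j => hW2 _ _
  have hWun : ∀ v, v = W (ρ v) (κ v) := by
    intro v
    by_contra hne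
    exact horth v _ hne (hW1 _ _).symm (hW2 _ _).symm
  -- classes
  have hcl1 : ∀ i, Finset.univ.filter (fun v => ρ v = e i) = Finset.univ.image (V i) := by
    intro i
    ext v
    rw [Finset.mem_filter, Finset.mem_image]
    constructor
    · rintro ⟨_, h⟩
      refine ⟨e.symm (κ v), Finset.mem_univ _, ?_⟩
      show W (e i) (e (e.symm (κ v))) = v
      rw [e.apply_symm_apply, ← h, ← hWun]
    · rintro ⟨j, _, rfl⟩
      exact ⟨Finset.mem_univ _, hV1 i j⟩
  have hcl2 : ∀ j, Finset.univ.filter (fun v => κ v = e j) =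
      Finset.univ.image (fun i => V i j) := by
    intro j
    ext v
    rw [Finset.mem_filter, Finset.mem_image]
    constructor
    · rintro ⟨_, h⟩
      refine ⟨e.symm (ρ v), Finset.mem_univ _, ?_⟩
      show W (e (e.symm (ρ v))) (e j) = v
      rw [e.apply_symm_apply, ← h, ← hWun]
    · rintro ⟨i, _, rfl⟩
      exact ⟨Finset.mem_univ _, hV2 i j⟩
  have inj1 : ∀ i, Function.Injective (V i) := by
    intro i j j' h
    have h1 := hV2 i j
    rw [h, hV2 i j'] at h1
    exact (e.injective h1).symm
  have inj2 : ∀ j, Function.Injective (fun i => V i j) := by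
    intro j i i' h
    have h1 := hV1 i j
    have h' : V i j = V i' j := h
    rw [h', hV1 i' j] at h1
    exact (e.injective h1).symm
  set M : Fin 3 → Fin 3 → ℕ := fun i j => x (V i j) % N with hM
  have hM1 : ∀ i j, 1 ≤ M i j ∧ M i j < N := by
    intro i j
    refine ⟨?_, Nat.mod_lt _ (by omega)⟩
    have := hx0 (V i j)
    rw [Nat.dvd_iff_mod_eq_zero] at this
    show 1 ≤ x (V i j) % N
    omega
  have hrow : ∀ i, N ∣ (∑ j, M i j) + 1 := by
    intro i
    have h1 := hdv1 (e i)
    rw [hcl1, Finset.sum_image (fun a _ b _ h => inj1 i h)] at h1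
    have h2 := (mod_sum N Finset.univ (fun j => x (V i j))).add_right 1
    exact (Nat.ModEq.dvd_iff h2 (dvd_refl N)).mpr h1
  have hcol : ∀ j, N ∣ (∑ i, M i j) + 1 := by
    intro j
    have h1 := hdv2 (e j)
    rw [hcl2, Finset.sum_image (fun a _ b _ h => inj2 j h)] at h1
    have h2 := (mod_sum N Finset.univ (fun i => x (V i j))).add_right 1
    exact (Nat.ModEq.dvd_iff h2 (dvd_refl N)).mpr h1
  have htot' : (∑ i, ∑ j, M i j) + 3 ≤ N * K := by
    refine le_trans ?_ htot
    have h1 : ∑ v, x v = ∑ i, ∑ j, x (V i j) := by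
      rw [← Finset.sum_fiberwise_of_maps_to (g := ρ) (t := Finset.univ) (fun v _ => Finset.mem_univ _),
        ← Equiv.sum_comp e]
      apply Finset.sum_congr rfl
      intro i _
      rw [hcl1, Finset.sum_image (fun a _ b _ h => inj1 i h)]
    rw [h1]
    have h2 : ∑ i, ∑ j, M i j ≤ ∑ i, ∑ j, x (V i j) :=
      Finset.sum_le_sum (fun i _ => Finset.sum_le_sum (fun j _ => Nat.mod_le _ _))
    omega
  rcases hE N K hNK M hM1 hrow hcol htot' with ⟨i, i', hii, S, T, hST, hs⟩ |
    ⟨j, j', hjj, S, T, hST, hs⟩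
  · exact half h4 hN hO hR e V hV1 hV2 hii hST hs
  · exact half h4 hN hO hsym e (fun j i => V i j) (fun j i => hV2 i j) (fun j i => hV1 i j)
      hjj hST hs

end Pool.Agent.Helper42.PQ.M9
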