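import Pool.Agent.Helper42.PQ.Spec3
import Pool.Agent.Helper42.PQ.Base
import Pool.Agent.Helper31.PQ.ROW

set_option autoImplicit false
set_option linter.unusedSectionVars false

namespace Pool.Agent.Helper42.PQ.NOD

open Finset Pool.Agent.Helper42.PQ
open Pool.Agent.Helper46.PV (sg_insert sg_union sg_mono sg_sdiff sg_erase slide exists_top)

variable {ι : Type} [Fintype ι] [DecidableEq ι] (w : ι → ℕ)

/-- the average over all `r`-subsets -/
lemma light (X : Finset ι) (r M : ℕ) (hr : r ≤ X.card)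
    (h : ∀ R ⊆ X, R.card = r → sg w R ≤ M) : r * sg w X ≤ X.card * M := by
  obtain ⟨T, hTX, hTc, hT⟩ := exists_top w X r hr
  have hB := h T hTX hTc
  have hs := sg_sdiff w hTX
  have hc : (X \ T).card + r = X.card := by
    rw [Finset.card_sdiff_of_subset hTX, hTc]; omega
  have h1 : ∀ x ∈ X \ T, r * w x ≤ M := by
    intro x hx
    have h2 : T.card • w x ≤ sg w T :=
      Finset.card_nsmul_le_sum _ w (w x) (fun g hg => hT g hg x hx)
    rw [hTc, smul_eq_mul] at h2
    omega
  have h2 : r * sg w (X \ T) ≤ (X \ T).card * M := by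
    have h3 : ∑ x ∈ X \ T, r * w x ≤ (X \ T).card • M := Finset.sum_le_card_nsmul _ _ M h1
    rw [← Finset.mul_sum, smul_eq_mul] at h3
    exact h3
  have h3 : r * sg w T ≤ r * M := Nat.mul_le_mul_left _ hB
  have h4 : X.card * M = (X \ T).card * M + r * M := by
    rw [← add_mul, hc]
  have h5 : r * sg w X = r * sg w (X \ T) + r * sg w T := by
    rw [← hs]; ring
  omega

theorem main : S_NOD := by
  intro ι _ _ w d D hD h3 h2
  have hS : ∃ S ⊆ D, S.card = 2 + 1 ∧ d ≤ sg w S := by
    by_contra hc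
    push Not at hc
    have h := light w D 3 (d - 1) hD (fun R hR hRc => by have := hc R hR hRc; omega)
    omega
  have hR : ∃ R ⊆ D, R.card = 2 ∧ sg w R ≤ d := by
    by_contra hc
    push Not at hc
    have h := Pool.Agent.Helper31.PQ.ROW.heavy w D 2 (d + 1) (by omega)
      (fun R hR hRc => by have := hc R hR hRc; omega)
    omega
  obtain ⟨R, hRD, y, hyD, hyR, hRc, h4, h5⟩ := slide w D 2 d hS hR
  exact ⟨R, y, hRD, hyD, hRc, hyR, h4, h5⟩

end Pool.Agent.Helper42.PQ.NOD
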