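import Pool.Agent.Helper42.PQ.Spec3
import Pool.Agent.Helper42.PQ.Base

set_option autoImplicit false

namespace Pool.Agent.Helper42.PQ.PUR

open Finset Pool.Agent.Helper42.PQ

theorem main : S_PUR := by
  intro ι _ _ d r q w ρ a S hr hS hc
  obtain ⟨T, hT, rfl⟩ := hS
  obtain ⟨h1, h2⟩ := hT a
  rw [h1, sp_class, hc] at h2
  have ht : (T a).card = 1 := by
    have : (T a).card * r = 1 * r := by omega
    exact Nat.eq_of_mul_eq_mul_right (by omega) this
  obtain ⟨m, hm⟩ := Multiset.card_eq_one.mp ht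
  refine ⟨m, ?_, ?_⟩
  · have : T a ≤ ∑ j, T j := Finset.single_le_sum (f := T) (fun j _ => Multiset.zero_le _)
      (Finset.mem_univ a)
    exact Multiset.mem_of_le this (by rw [hm]; exact Multiset.mem_singleton_self m)
  · rw [hm, Wt_singleton] at h1
    rw [h1]
    funext i
    unfold res
    by_cases h : ρ i = a
    · by_cases h' : w i = 0
      · simp [h, h']
      · rw [if_pos h, if_pos (mem_cls.mpr ⟨h', h⟩)]
    · rw [if_neg h, if_neg (fun hh => h (mem_cls.mp hh).2)]

end Pool.Agent.Helper42.PQ.PUR
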