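import Pool.Agent.Helper42.PQ.Spec
import Pool.Agent.Helper46.PV.N

set_option autoImplicit false

/-!
Statements of the parts of swarm PQ which mention the algebra.
-/

namespace Pool.Agent.Helper42.PQ

open Finset Pool.Agent.Helper857.PV

/-- bridge to the algebra (`Gen n d s` is `G (Fin n) d s`) -/
def S_BR : Prop := ∀ (K : Type) [Field K] (n d s : ℕ), 1 ≤ d →
  (∀ (k : ℕ) (w : Fin n → ℕ), ∑ i, w i = k * d → Conn (Fin n) d s k w) → IsQuadratic K n d s

/-- `d = s + 11`, `n = 4 s - 1` (uses L, REAL, CLO) -/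
def S_N11 : Prop := ∀ (K : Type) [Field K] (s : ℕ), 11 ≤ s → ¬ IsQuadratic K (4 * s - 1) (s + 11) s

/-- `d = s + 10`, `n = 6 s - 3` (uses L, REAL, CLO) -/
def S_N10 : Prop := ∀ (K : Type) [Field K] (s : ℕ), 10 ≤ s → ¬ IsQuadratic K (6 * s - 3) (s + 10) s

end Pool.Agent.Helper42.PQ
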