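import Pool.Agent.Helper42.PQ.Spec

set_option autoImplicit false

/-!
Statements of the parts for `s = 3` (`r = 2`), `d = 7, 8, 9`.
-/

namespace Pool.Agent.Helper42.PQ

open Finset

/-! ## finite facts -/

/-- 3 x 3 arrays with all line sums 7 or 8: two equal entries in general position -/
def S_MAG : Prop := ∀ d : ℕ, (d = 7 ∨ d = 8) → ∀ M : Fin 3 → Fin 3 → ℕ, (∀ i j, 1 ≤ M i j) →
  (∀ i, ∑ j, M i j = d) → (∀ j, ∑ i, M i j = d) →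
  ∃ i i' j j', i ≠ i' ∧ j ≠ j' ∧ M i j = M i' j'

/-- two quadruples with the same sum -/
def S_C1 : Prop := ∀ d : ℕ, (d = 7 ∨ d = 8) → ∀ u v : Fin 4 → ℕ, (∀ i, 1 ≤ u i) →
  (∀ i, 1 ≤ v i) → ∑ i, u i = ∑ i, v i → (∀ i, ∑ j, u j < d + u i) →
  (∀ i, ∑ j, v j < d + v i) → (∀ i j k, i ≠ j → u i + u j + v k ≠ d) →
  (∀ i j k, i ≠ j → v i + v j + u k ≠ d) →
  ∃ i j k l, i ≠ j ∧ k ≠ l ∧ u i + u j = v k + v l

/-- two triples with the same sum -/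
def S_C2 : Prop := ∀ d : ℕ, (d = 7 ∨ d = 8) → ∀ u v : Fin 3 → ℕ, ∀ x y : ℕ, (∀ i, 1 ≤ u i) →
  (∀ i, 1 ≤ v i) → 1 ≤ x → 1 ≤ y → ∑ i, u i = ∑ i, v i → ∑ i, u i < d →
  ∑ i, u i + (x + y) = 2 * d → (∀ i j k, i ≠ j → u i + u j + v k ≠ d) →
  (∀ i j k, i ≠ j → v i + v j + u k ≠ d) →
  ∃ i j, u i = v j ∧ (x + u i ≤ d ∨ y + u i ≤ d)

/-- the array of two pairs of triples (`k = 4`, eleven variables):
`W₁ = a₁₁ a₁₂ b₁`, `W₂ = a₂₁ a₂₂ b₂`, `W₁' = a₁₁ a₂₁ c₁`, `W₂' = a₁₂ a₂₂ c₂`, rest `e₁ e₂ e₃` -/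
def S_F3 : Prop := ∀ d : ℕ, (d = 7 ∨ d = 8) → ∀ a11 a12 a21 a22 b1 b2 c1 c2 e1 e2 e3 : ℕ,
  1 ≤ a11 → 1 ≤ a12 → 1 ≤ a21 → 1 ≤ a22 → 1 ≤ b1 → 1 ≤ b2 → 1 ≤ c1 → 1 ≤ c2 →
  1 ≤ e1 → 1 ≤ e2 → 1 ≤ e3 → a11 + a12 + b1 = d → a21 + a22 + b2 = d → a11 + a21 + c1 = d →
  a12 + a22 + c2 = d → c1 + c2 + (e1 + e2 + e3) = 2 * d →
  (d ≤ e1 + e2 + e3 ∧ (e1 + e2 ≤ d ∨ e1 + e3 ≤ d ∨ e2 + e3 ≤ d)) ∨ (b1 = 1 ∧ c1 = 1) ∨
  (∃ i j k : Fin 6, i < j ∧ j < k ∧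
    (![a11, b1, c1, e1, e2, e3] i + ![a11, b1, c1, e1, e2, e3] j +
        ![a11, b1, c1, e1, e2, e3] k = d ∨
     ![a12, b1, c2, e1, e2, e3] i + ![a12, b1, c2, e1, e2, e3] j +
        ![a12, b1, c2, e1, e2, e3] k = d ∨
     ![a21, b2, c1, e1, e2, e3] i + ![a21, b2, c1, e1, e2, e3] j +
        ![a21, b2, c1, e1, e2, e3] k = d ∨
     ![a22, b2, c2, e1, e2, e3] i + ![a22, b2, c2, e1, e2, e3] j +
        ![a22, b2, c2, e1, e2, e3] k = d))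

/-! ## tools -/

/-- the restriction of `w` to a set -/
def res {ι : Type} [DecidableEq ι] (w : ι → ℕ) (A : Finset ι) : ι → ℕ :=
  fun i => if i ∈ A then w i else 0

/-- pure blocks: a class with `r + 1` variables is a block of the configuration
(`Cf.NG` gives `t`; `t = 1`) -/
def S_PUR : Prop := ∀ (ι : Type) [Fintype ι] [DecidableEq ι] (d r q : ℕ) (w : ι → ℕ)
  (ρ : ι → Fin q) (a : Fin q) (S : Multiset (G ι d (r + 1))), 1 ≤ r → Cf w ρ S →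
  (cls w ρ a).card = r + 1 → ∃ m ∈ S, m.1 = res w (cls w ρ a)

/-- a node (in the sense of `Helper46.PV.Bn`) in a set of at least three elements
(`Helper46.PV.slide` with `exists_top`): `3 sg ≥ |D| d'`, `d' > d - 1`, resp. ... -/
def S_NOD : Prop := ∀ (ι : Type) [Fintype ι] [DecidableEq ι] (w : ι → ℕ) (d : ℕ) (D : Finset ι),
  3 ≤ D.card → D.card * (d - 1) < 3 * sg w D → 2 * sg w D < D.card * (d + 1) →
  ∃ P x, P ⊆ D ∧ x ∈ D ∧ Bn w 2 d P x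

/-! ## the cases -/

/-- `k = 3`, eight variables (uses GRP, SPOS, NODE, PUR, NOD) -/
def S_T1 : Prop := ∀ (ι : Type) [Fintype ι] [DecidableEq ι] (d : ℕ) (w : ι → ℕ),
  7 ≤ d → d ≤ 9 → ∑ i, w i = 3 * d → (sp w).card = 8 → Conn ι d 3 3 w

/-- `k = 3`, nine variables (uses GRP, PUR, MAG) -/
def S_T2 : Prop := ∀ (ι : Type) [Fintype ι] [DecidableEq ι] (d : ℕ) (w : ι → ℕ),
  7 ≤ d → d ≤ 8 → ∑ i, w i = 3 * d → (sp w).card = 9 → Conn ι d 3 3 w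

/-- `k = 4`, ten variables, groupings of type (5,5) (uses NODE, REAL, SAME, SPOS, NOD, C1, C2);
the class `0` of `ρ` is `A` -/
def S_T3 : Prop := ∀ (ι : Type) [Fintype ι] [DecidableEq ι] (d : ℕ) (w : ι → ℕ),
  7 ≤ d → d ≤ 8 → ∑ i, w i = 4 * d → (sp w).card = 10 →
  (∀ w' : ι → ℕ, ∑ i, w' i = 3 * d → Conn ι d 3 3 w') →
  (∀ W ⊆ sp w, W.card = 3 → sg w W ≠ d) →
  ∀ (ρ κ : ι → Fin 2) (S T : Multiset (G ι d 3)), (cls w ρ 0).card = 5 → (cls w κ 0).card = 5 →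
  Cf (r := 2) w ρ S → Cf (r := 2) w κ T → Cn S T

/-- `k = 4`, ten variables (uses GRP, REAL, NODE, NOD, T3) -/
def S_T4 : Prop := ∀ (ι : Type) [Fintype ι] [DecidableEq ι] (d : ℕ) (w : ι → ℕ),
  7 ≤ d → d ≤ 8 → ∑ i, w i = 4 * d → (sp w).card = 10 →
  (∀ w' : ι → ℕ, ∑ i, w' i = 3 * d → Conn ι d 3 3 w') → Conn ι d 3 4 w

/-- `k = 4`, eleven variables (uses GRP, REAL, NODE, PUR, F3) -/
def S_T5 : Prop := ∀ (ι : Type) [Fintype ι] [DecidableEq ι] (d : ℕ) (w : ι → ℕ),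
  7 ≤ d → d ≤ 8 → ∑ i, w i = 4 * d → (sp w).card = 11 →
  (∀ w' : ι → ℕ, ∑ i, w' i = 3 * d → Conn ι d 3 3 w') → Conn ι d 3 4 w

/-- all fibres with at most eleven variables (uses L, T1, T2, T4, T5) -/
def S_T6 : Prop := ∀ (n d k : ℕ) (w : Fin n → ℕ), ∑ i, w i = k * d →
  ((7 ≤ d ∧ d ≤ 8 ∧ n ≤ 11) ∨ (d = 9 ∧ n = 8)) → Conn (Fin n) d 3 k w

end Pool.Agent.Helper42.PQ
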